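import Mathlib

set_option autoImplicit false

namespace Pool.Agent.H016e

open Finset

/-- the character of period one -/
noncomputable def ee (t : ℝ) : ℂ := Complex.exp (Complex.I * (2 * Real.pi * t : ℝ))

lemma ee_add (s t : ℝ) : ee (s + t) = ee s * ee t := by
  unfold ee; rw [← Complex.exp_add]; congr 1; push_cast; ring

lemma norm_ee (t : ℝ) : ‖ee t‖ = 1 := by
  unfold ee; rw [mul_comm]; exact Complex.norm_exp_ofReal_mul_I _

lemma ee_int (z : ℤ) : ee z = 1 := by
  unfold ee
  rw [← Complex.exp_int_mul_two_pi_mul_I z]; congr 1; push_cast; ring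

lemma ee_zero : ee 0 = 1 := by simpa using ee_int 0

lemma conj_ee (t : ℝ) : (starRingEnd ℂ) (ee t) = ee (-t) := by
  unfold ee; rw [← Complex.exp_conj, map_mul, Complex.conj_I, Complex.conj_ofReal]; congr 1
  push_cast; ring

lemma ee_nat_mul (n : ℕ) (t : ℝ) : ee (n * t) = ee t ^ n := by
  unfold ee; rw [← Complex.exp_nat_mul]; congr 1; push_cast; ring

/-- within `ε` of an integer -/
def Near (x ε : ℝ) : Prop := ∃ z : ℤ, |x - z| ≤ ε

lemma near_ee (t : ℝ) : Near t (‖ee t - 1‖ / 4) := by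
  refine ⟨round t, ?_⟩
  have h1 : ee t = ee (t - round t) := by
    rw [sub_eq_add_neg, ee_add, ← Int.cast_neg, ee_int, mul_one]
  have h2 := abs_sub_round t
  rw [h1]
  generalize t - round t = s at h2
  unfold ee
  rw [Complex.norm_exp_I_mul_ofReal_sub_one, Real.norm_eq_abs, abs_mul]
  have hp := Real.pi_pos
  have e : |2 * Real.pi * s / 2| = Real.pi * |s| := by
    rw [show 2 * Real.pi * s / 2 = Real.pi * s by ring, abs_mul, abs_of_pos hp]
  have h3 := Real.mul_abs_le_abs_sin (x := 2 * Real.pi * s / 2) (by rw [e]; nlinarith)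
  rw [e, show 2 / Real.pi * (Real.pi * |s|) = 2 * |s| by field_simp] at h3
  rw [abs_of_pos (by norm_num : (0 : ℝ) < 2)]
  linarith

lemma Near.mono {x ε ε' : ℝ} (h : Near x ε) (h' : ε ≤ ε') : Near x ε' :=
  h.imp fun _ hz => hz.trans h'

lemma Near.sub {x y ε : ℝ} (h : Near x ε) (h' : Near y ε) : Near (x - y) (2 * ε) := by
  obtain ⟨z, hz⟩ := h
  obtain ⟨w, hw⟩ := h'
  refine ⟨z - w, ?_⟩
  rw [abs_le] at *
  push_cast
  constructor <;> linarith [hz.1, hz.2, hw.1, hw.2]

lemma Near.small {t ε : ℝ} (h : Near t ε) (ht : |t| ≤ 1 / 2) : |t| ≤ ε := by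
  obtain ⟨z, hz⟩ := h
  by_cases h0 : z = 0
  · simpa [h0] using hz
  · have h1 : (1 : ℝ) ≤ |(z : ℝ)| := by exact_mod_cast Int.one_le_abs h0
    have := abs_sub t (t - z)
    rw [sub_sub_cancel] at this
    linarith

/-- many multiples of `β` near integers force a good rational approximation -/
lemma many (β ε δ : ℝ) (N : ℕ) (S : Finset ℕ) (hS : ∀ h ∈ S, h < N) (hδ : 0 < δ)
    (hc : δ * N ≤ S.card) (hn : ∀ h ∈ S, Near (h * β) ε) (hε : 16 * ε < δ) (hδ1 : δ ≤ 1)
    (hN : 8 ≤ δ ^ 2 * N) : ∃ q : ℕ, 1 ≤ q ∧ (q : ℝ) ≤ 2 / δ ∧ Near (q * β) (16 * ε / (δ ^ 2 * N)) := by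
  have hN0 : (0 : ℝ) < N := by
    by_contra h
    have : (N : ℝ) = 0 := le_antisymm (not_lt.mp h) (Nat.cast_nonneg N)
    rw [this] at hN; linarith
  have hδN : 8 ≤ δ * N := by nlinarith [mul_nonneg (mul_nonneg hδ.le hN0.le) (sub_nonneg.mpr hδ1)]
  obtain ⟨q, h, hq1, hq2, h1, h2⟩ : ∃ q h : ℕ, 1 ≤ q ∧ (q : ℝ) ≤ 2 / δ ∧ h ∈ S ∧ h + q ∈ S := by
    obtain ⟨k, hk⟩ : ∃ k : ℕ, k = ⌊2 / δ⌋₊ + 1 := ⟨_, rfl⟩
    have k1 : 2 / δ < k := by rw [hk]; push_cast; exact Nat.lt_floor_add_one _
    have k2 : (k : ℝ) ≤ 2 / δ + 1 := by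
      rw [hk]; push_cast; linarith [Nat.floor_le (by positivity : 0 ≤ 2 / δ)]
    have k0 : (0 : ℝ) < k := lt_trans (by positivity) k1
    have hlt : (range (N / k + 1)).card < S.card := by
      rw [card_range]
      have a1 : ((N / k : ℕ) : ℝ) ≤ N / k := Nat.cast_div_le
      have a2 : (N : ℝ) / k ≤ δ * N / 2 := by
        rw [div_le_iff₀ k0]
        rw [div_lt_iff₀ hδ] at k1
        nlinarith
      have : ((N / k + 1 : ℕ) : ℝ) < S.card := by push_cast; linarith
      exact_mod_cast this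
    obtain ⟨x, hx, y, hy, hxy, he⟩ := exists_ne_map_eq_of_card_lt_of_maps_to hlt
      (f := fun h => h / k) fun h hh => mem_range.mpr
        (Nat.lt_succ_of_le (Nat.div_le_div_right (hS h hh).le))
    have hk0 : 0 < k := by omega
    have key : ∀ x ∈ S, ∀ y ∈ S, x < y → x / k = y / k →
        ∃ q h : ℕ, 1 ≤ q ∧ (q : ℝ) ≤ 2 / δ ∧ h ∈ S ∧ h + q ∈ S := by
      intro x hx y hy hlt he
      refine ⟨y - x, x, by omega, ?_, hx, by rwa [Nat.add_sub_cancel' hlt.le]⟩
      have a1 := Nat.div_add_mod x k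
      have a2 := Nat.div_add_mod y k
      have a3 := Nat.mod_lt y hk0
      rw [he] at a1
      have : y - x + 1 ≤ k := by omega
      have : ((y - x : ℕ) : ℝ) + 1 ≤ k := by exact_mod_cast this
      linarith
    rcases lt_or_gt_of_ne hxy with h | h
    · exact key x hx y hy h he
    · exact key y hy x hx h he.symm
  have hdiff : ∀ x ∈ S, ∀ i : ℕ, x + q * i ∈ S → Near (i * (q * β)) (2 * ε) := by
    intro x hx i hi
    convert (hn _ hi).sub (hn _ hx) using 1
    push_cast; ring
  obtain ⟨z, hz⟩ := hdiff h h1 1 (by simpa using h2)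
  rw [Nat.cast_one, one_mul] at hz
  refine ⟨q, hq1, hq2, z, ?_⟩
  generalize hθ : q * β - z = θ at hz
  by_contra hcon
  push Not at hcon
  have hε0 : 0 ≤ ε := by linarith [abs_nonneg θ]
  have hθ0 : 0 < |θ| := lt_of_le_of_lt (by positivity) hcon
  obtain ⟨i1, hi1⟩ : ∃ i1, i1 = min ⌊1 / (2 * |θ|)⌋₊ (N / q) := ⟨_, rfl⟩
  obtain ⟨i0, hi0⟩ : ∃ i0, i0 = ⌊2 * ε / |θ|⌋₊ := ⟨_, rfl⟩
  have hgap : ∀ x ∈ S, ∀ i ≤ i1, x + q * i ∈ S → i ≤ i0 := by
    intro x hx i hi hxi
    have a1 : (i : ℝ) ≤ 1 / (2 * |θ|) := by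
      have : i ≤ ⌊1 / (2 * |θ|)⌋₊ := hi.trans (hi1 ▸ min_le_left _ _)
      exact (Nat.le_floor_iff (by positivity)).mp this
    obtain ⟨w, hw⟩ := hdiff x hx i hxi
    have a2 : Near (i * θ) (2 * ε) := ⟨w - i * z, by
      convert hw using 2
      rw [← hθ]; push_cast; ring⟩
    have a3 : |i * θ| = i * |θ| := by rw [abs_mul, Nat.abs_cast]
    have a4 := a2.small (by
      rw [a3]; rw [le_div_iff₀ (by positivity)] at a1; linarith)
    rw [hi0, Nat.le_floor_iff (by positivity), le_div_iff₀ hθ0]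
    linarith
  have hq0 : 0 < q := hq1
  have hqi : q * i1 ≤ N := (Nat.mul_le_mul_left q (hi1 ▸ min_le_right _ _)).trans (Nat.mul_div_le N q)
  have hcount : S.card * (i1 + 1) ≤ (i0 + 1) * (2 * N) := by
    have := card_le_mul_card_image (f := fun p : ℕ × ℕ => p.1 + q * p.2) (S ×ˢ range (i1 + 1)) (i0 + 1)
      (by
        intro n _
        set F := (S ×ˢ range (i1 + 1)).filter (fun p : ℕ × ℕ => p.1 + q * p.2 = n) with hF
        rcases F.eq_empty_or_nonempty with h0 | hne
        · rw [h0]; simp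
        obtain ⟨p0, hp0, hmin⟩ := F.exists_min_image (fun p => p.2) hne
        have : F.card ≤ (Icc p0.2 (p0.2 + i0)).card := by
          refine card_le_card_of_injOn (fun p => p.2) ?_ ?_
          · intro p hp
            have b0 := hmin p hp
            obtain ⟨b1, b2⟩ := mem_filter.mp (mem_coe.mp hp)
            obtain ⟨b3, b4⟩ := mem_filter.mp hp0
            obtain ⟨d, hd⟩ := Nat.exists_eq_add_of_le b0
            have b5 := mem_range.mp (mem_product.mp b1).2
            have b6 : p.1 + q * d = p0.1 := by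
              rw [hd, mul_add] at b2; omega
            have := hgap p.1 (mem_product.mp b1).1 d (by omega) (b6 ▸ (mem_product.mp b3).1)
            simp only [coe_Icc, Set.mem_Icc]
            omega
          · intro p hp p' hp' he
            have b2 := (mem_filter.mp (mem_coe.mp hp)).2
            have b3 := (mem_filter.mp (mem_coe.mp hp')).2
            have he' : p.2 = p'.2 := he
            rw [he'] at b2
            exact Prod.ext (by omega) he'
        rw [Nat.card_Icc] at this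
        omega)
    rw [card_product, card_range] at this
    refine this.trans (Nat.mul_le_mul_left _ ?_)
    rw [← card_range (2 * N)]
    refine card_le_card fun n hn' => ?_
    obtain ⟨p, hp, rfl⟩ := mem_image.mp hn'
    have b1 := hS _ (mem_product.mp hp).1
    have b2 : q * p.2 ≤ q * i1 :=
      Nat.mul_le_mul_left q (Nat.lt_succ_iff.mp (mem_range.mp (mem_product.mp hp).2))
    exact mem_range.mpr (by omega)
  have hc1 : δ * (i1 + 1) ≤ (2 * ε / |θ| + 1) * 2 := by
    have a1 : (S.card : ℝ) * (i1 + 1) ≤ (i0 + 1) * (2 * N) := by exact_mod_cast hcount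
    have a2 : (i0 : ℝ) ≤ 2 * ε / |θ| := hi0 ▸ Nat.floor_le (by positivity)
    have a3 : δ * N * (i1 + 1) ≤ (2 * ε / |θ| + 1) * (2 * N) :=
      (mul_le_mul_of_nonneg_right hc (by positivity)).trans
        (a1.trans (mul_le_mul_of_nonneg_right (by linarith) (by positivity)))
    exact le_of_mul_le_mul_right (by linarith) hN0
  rcases min_choice ⌊1 / (2 * |θ|)⌋₊ (N / q) with hm | hm
  · rw [← hi1] at hm
    have a1 : 1 / (2 * |θ|) < i1 + 1 := hm ▸ Nat.lt_floor_add_one _
    rw [div_lt_iff₀ (by positivity)] at a1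
    have a2 := mul_le_mul_of_nonneg_right hc1 hθ0.le
    have a3 : (2 * ε / |θ| + 1) * 2 * |θ| = 4 * ε + 2 * |θ| := by field_simp; ring
    nlinarith
  · rw [← hi1] at hm
    have a1 : (N : ℝ) < q * (i1 + 1) := by
      have := Nat.lt_mul_div_succ N hq0
      rw [← hm] at this
      exact_mod_cast this
    rw [le_div_iff₀ hδ] at hq2
    have a2 : δ ^ 2 * N ≤ 4 * (2 * ε / |θ| + 1) := by
      have b1 : δ * N ≤ 2 * (i1 + 1) := by
        nlinarith [mul_le_mul_of_nonneg_right hq2 (by positivity : (0 : ℝ) ≤ i1 + 1)]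
      nlinarith
    rw [div_lt_iff₀ (by linarith)] at hcon
    have a3 : δ ^ 2 * N / 8 ≤ 2 * ε / |θ| := by linarith
    rw [le_div_iff₀ hθ0] at a3
    linarith

lemma norm_sq_sum_le (a : ℕ → ℂ) (ha : ∀ n, ‖a n‖ = 1) (N : ℕ) :
    ‖∑ n ∈ range N, a n‖ ^ 2 ≤ N + 2 * ∑ h ∈ range N,
      ‖∑ n ∈ range (N - (h + 1)), a (n + (h + 1)) * (starRingEnd ℂ) (a n)‖ := by
  have key : ∀ N, ‖∑ n ∈ range N, a n‖ ^ 2 = N + 2 * (∑ h ∈ range N,
      ∑ n ∈ range (N - (h + 1)), a (n + (h + 1)) * (starRingEnd ℂ) (a n)).re := by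
    intro N
    induction N with
    | zero => simp
    | succ N ih =>
      have e1 : ∑ h ∈ range (N + 1), ∑ n ∈ range (N + 1 - (h + 1)),
          a (n + (h + 1)) * (starRingEnd ℂ) (a n) = ∑ h ∈ range N, ∑ n ∈ range (N - (h + 1)),
          a (n + (h + 1)) * (starRingEnd ℂ) (a n) + a N * (starRingEnd ℂ) (∑ n ∈ range N, a n) := by
        rw [sum_range_succ, Nat.sub_self, sum_range_zero, add_zero, map_sum, mul_sum,
          ← sum_range_reflect (fun n => a N * (starRingEnd ℂ) (a n)) N, ← sum_add_distrib]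
        refine sum_congr rfl fun h hh => ?_
        have := mem_range.mp hh
        rw [show N + 1 - (h + 1) = (N - (h + 1)) + 1 by omega, sum_range_succ,
          show N - (h + 1) + (h + 1) = N by omega, show N - 1 - h = N - (h + 1) by omega]
      rw [e1, sum_range_succ, Complex.add_re, ← Complex.normSq_eq_norm_sq, add_comm _ (a N),
        Complex.normSq_add, Complex.normSq_eq_norm_sq, Complex.normSq_eq_norm_sq, ih, ha]
      push_cast; ring
  rw [key]
  have := (Complex.re_le_norm _).trans (norm_sum_le (range N) fun h =>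
    ∑ n ∈ range (N - (h + 1)), a (n + (h + 1)) * (starRingEnd ℂ) (a n))
  linarith

/-- the `e`-th difference of `φ` is the constant `γ` -/
def Deg (e : ℕ) (γ : ℝ) (φ : ℕ → ℝ) : Prop := ∀ n, (fwdDiff 1)^[e] φ n = γ

lemma Deg.shift {e : ℕ} {γ : ℝ} {φ : ℕ → ℝ} (H : Deg (e + 1) γ φ) (h : ℕ) :
    Deg e (h * γ) fun n => φ (n + h) - φ n := by
  induction h with
  | zero =>
    intro n
    have := congrFun (fwdDiff_iter_const_smul 1 (0 : ℝ) φ e) n
    simp only [zero_smul, Pi.zero_apply] at this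
    simpa [Pi.zero_def] using this
  | succ h ih =>
    intro n
    have e1 : (fun n => φ (n + (h + 1)) - φ n) =
        (fun n => fwdDiff 1 φ (n + h)) + fun n => φ (n + h) - φ n := by
      funext n; simp [fwdDiff, add_assoc]
    rw [e1, fwdDiff_iter_add, Pi.add_apply, ih n, fwdDiff_iter_comp_add,
      ← Function.iterate_succ_apply, H]
    push_cast; ring

/-- inverse form of Weyl's inequality -/
lemma weyl (e : ℕ) : ∃ C : ℕ, 1 ≤ C ∧ ∀ (φ : ℕ → ℝ) (γ : ℝ), Deg (e + 1) γ φ → ∀ (N N' : ℕ) (R : ℝ),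
    N' ≤ N → 2 ≤ R → R ^ C ≤ N → N / R ≤ ‖∑ n ∈ range N', ee (φ n)‖ →
    ∃ q : ℕ, 1 ≤ q ∧ (q : ℝ) ≤ R ^ C ∧ Near (q * γ) (R ^ C / N ^ (e + 1)) := by
  induction e with
  | zero =>
    refine ⟨1, le_rfl, fun φ γ H N N' R _ hR hN hS => ⟨1, le_rfl, by simp; linarith, ?_⟩⟩
    have h1 : ∀ n, φ (n + 1) = φ n + γ := fun n => by
      have := H n
      simp only [zero_add, Function.iterate_one, fwdDiff] at this
      linarith
    have h2 : (∑ n ∈ range N', ee (φ n)) * (ee γ - 1) = ee (φ N') - ee (φ 0) := by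
      rw [sum_mul, ← sum_range_sub (fun n => ee (φ n))]
      exact sum_congr rfl fun n _ => by rw [h1, ee_add]; ring
    have h3 : ‖∑ n ∈ range N', ee (φ n)‖ * ‖ee γ - 1‖ ≤ 2 := by
      rw [← norm_mul, h2]
      refine (norm_sub_le _ _).trans ?_
      rw [norm_ee, norm_ee]; norm_num
    rw [Nat.cast_one, one_mul]
    refine (near_ee γ).mono ?_
    rw [pow_one] at hN
    have hN0 : (0 : ℝ) < N := by linarith
    have h4 := mul_le_mul_of_nonneg_right hS (norm_nonneg (ee γ - 1))
    rw [div_mul_eq_mul_div, div_le_iff₀ (by linarith)] at h4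
    rw [pow_one, zero_add, pow_one, div_le_div_iff₀ (by norm_num) hN0]
    nlinarith
  | succ e ih =>
    obtain ⟨C, hC, ih⟩ := ih
    refine ⟨15 * C + 14, by omega, fun φ γ H N N' R hN' hR hN hS => ?_⟩
    have hR1 : 1 ≤ R := by linarith
    have hR0 : 0 < R := by linarith
    have hp : ∀ a b, a ≤ b → R ^ a ≤ R ^ b := fun a b h => pow_le_pow_right₀ hR1 h
    have h2 : ∀ a, (2 : ℝ) ^ a ≤ R ^ a := fun a => pow_le_pow_left₀ (by norm_num) hR a
    have hN0 : (0 : ℝ) < N := lt_of_lt_of_le (by positivity) hN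
    set T : ℕ → ℝ := fun h => ‖∑ n ∈ range (N' - h), ee (φ (n + h) - φ n)‖ with hT
    have s1 : (N / R) ^ 2 ≤ N + 2 * ∑ h ∈ range N', T (h + 1) := by
      have a1 := norm_sq_sum_le (fun n => ee (φ n)) (fun n => norm_ee _) N'
      simp only [conj_ee, ← ee_add, ← sub_eq_add_neg] at a1
      have a2 : (N' : ℝ) ≤ N := by exact_mod_cast hN'
      have a3 := pow_le_pow_left₀ (by positivity) hS 2
      simp only [hT]
      linarith
    have hTN : ∀ h, T h ≤ N' - h ∨ T h = 0 := by
      intro h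
      rcases le_total h N' with c | c
      · left
        refine (norm_sum_le _ _).trans ?_
        simp [norm_ee, Nat.cast_sub c]
      · right; simp [hT, Nat.sub_eq_zero_of_le c]
    set G := (range N').filter fun h => N / R ^ 5 ≤ T (h + 1) with hG
    have s2 : N / R ^ 5 ≤ G.card := by
      have a1 : ∑ h ∈ range N', T (h + 1) ≤ G.card * N + N * (N / R ^ 5) := by
        rw [← sum_filter_add_sum_filter_not (range N') (fun h => N / R ^ 5 ≤ T (h + 1))]
        have a2 : (N' : ℝ) ≤ N := by exact_mod_cast hN'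
        refine add_le_add ((sum_le_card_nsmul _ _ (N : ℝ) fun h _ => ?_).trans (by simp [hG]))
          ((sum_le_card_nsmul _ _ (N / R ^ 5) fun h hh => (not_le.mp (mem_filter.mp hh).2).le).trans ?_)
        · rcases hTN (h + 1) with c | c
          · push_cast at c; linarith [Nat.cast_nonneg (α := ℝ) h]
          · linarith
        · rw [nsmul_eq_mul]
          refine mul_le_mul_of_nonneg_right ?_ (by positivity)
          exact le_trans (by exact_mod_cast (card_filter_le _ _).trans (card_range N').le) a2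
      have a3 : (N / R) ^ 2 = R ^ 3 * (N * (N / R ^ 5)) := by field_simp
      have a4 : 1 ≤ N / R ^ 5 := (one_le_div (by positivity)).mpr ((hp 5 _ (by omega)).trans hN)
      have a5 := h2 3
      have a6 : (N : ℝ) ≤ N * (N / R ^ 5) := le_mul_of_one_le_right hN0.le a4
      have a7 : 8 * (N * (N / R ^ 5)) ≤ R ^ 3 * (N * (N / R ^ 5)) :=
        mul_le_mul_of_nonneg_right (by linarith) (by positivity)
      exact le_of_mul_le_mul_left (by linarith) hN0
    have s3 : ∀ h : ℕ, ∃ q : ℕ, h ∈ G → (1 ≤ q ∧ (q : ℝ) ≤ R ^ (5 * C) ∧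
        Near (q * ((h + 1 : ℕ) * γ)) (R ^ (5 * C) / N ^ (e + 1))) := by
      intro h
      by_cases hh : h ∈ G
      · obtain ⟨q, hq⟩ := ih _ _ (H.shift (h + 1)) N (N' - (h + 1)) (R ^ 5) (by omega)
          (by linarith [h2 5]) (by rw [← pow_mul]; exact (hp _ _ (by omega)).trans hN)
          (mem_filter.mp hh).2
        exact ⟨q, fun _ => by simpa only [← pow_mul] using hq⟩
      · exact ⟨0, fun h => absurd h hh⟩
    choose q hq using s3
    have hQ : (1 : ℝ) ≤ R ^ (5 * C) := one_le_pow₀ hR1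
    obtain ⟨q0, hq0, hfib⟩ := exists_le_card_fiber_of_nsmul_le_card_of_maps_to (M := ℝ)
      (s := G) (t := Icc 1 ⌊R ^ (5 * C)⌋₊) (f := q) (b := N / R ^ (5 * C + 5))
      (fun h hh => mem_Icc.mpr ⟨(hq h hh).1, Nat.le_floor (hq h hh).2.1⟩)
      ⟨1, mem_Icc.mpr ⟨le_rfl, Nat.le_floor (by simpa using hQ)⟩⟩ (by
        refine le_trans ?_ s2
        rw [Nat.card_Icc, Nat.add_sub_cancel, nsmul_eq_mul]
        calc _ ≤ R ^ (5 * C) * (N / R ^ (5 * C + 5)) :=
            mul_le_mul_of_nonneg_right (Nat.floor_le (by positivity)) (by positivity)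
          _ = _ := by field_simp; ring)
    have hq01 := (mem_Icc.mp hq0).1
    have hq02 : (q0 : ℝ) ≤ R ^ (5 * C) := (Nat.le_floor_iff (by positivity)).mp (mem_Icc.mp hq0).2
    have hNe : (N : ℝ) ≤ N ^ (e + 1) := le_self_pow₀ ((one_le_pow₀ hR1).trans hN) (by omega)
    obtain ⟨q1, b1, b2, b3⟩ := many (q0 * γ) (R ^ (5 * C) / N ^ (e + 1)) (1 / R ^ (5 * C + 5)) N
      ((G.filter fun h => q h = q0).image (· + 1)) (by
        intro h' hh'
        obtain ⟨h, hh, rfl⟩ := mem_image.mp hh'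
        have a1 := (mem_filter.mp (mem_filter.mp hh).1).2
        have a2 : 0 < N / R ^ 5 := by positivity
        rcases hTN (h + 1) with c | c
        · have : ((h + 1 : ℕ) : ℝ) < N' := by linarith
          have : h + 1 < N' := by exact_mod_cast this
          omega
        · linarith) (by positivity)
      (by rw [card_image_of_injective _ (add_left_injective 1), one_div_mul_eq_div]; exact hfib)
      (by
        intro h' hh'
        obtain ⟨h, hh, rfl⟩ := mem_image.mp hh'
        obtain ⟨a1, a2⟩ := mem_filter.mp hh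
        have := (hq h a1).2.2
        rw [a2] at this
        convert this using 1
        ring)
      (by
        rw [← mul_div_assoc, div_lt_div_iff₀ (by positivity) (by positivity), one_mul]
        have a1 : 16 * R ^ (5 * C) * R ^ (5 * C + 5) < R ^ 5 * (R ^ (5 * C) * R ^ (5 * C + 5)) := by
          rw [mul_assoc]
          exact mul_lt_mul_of_pos_right (by linarith [h2 5]) (by positivity)
        rw [← pow_add, ← pow_add] at a1
        exact a1.trans_le (((hp _ _ (by omega)).trans hN).trans hNe))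
      (div_le_one_of_le₀ (one_le_pow₀ hR1) (by positivity))
      (by
        rw [div_pow, one_pow, one_div_mul_eq_div, le_div_iff₀ (by positivity), ← pow_mul]
        have a1 : 8 * R ^ ((5 * C + 5) * 2) ≤ R ^ 3 * R ^ ((5 * C + 5) * 2) :=
          mul_le_mul_of_nonneg_right (by linarith [h2 3]) (by positivity)
        rw [← pow_add] at a1
        exact a1.trans ((hp _ _ (by omega)).trans hN))
    refine ⟨q1 * q0, Nat.mul_pos b1 hq01, ?_, ?_⟩
    · rw [div_div_eq_mul_div, div_one] at b2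
      push_cast
      calc (q1 : ℝ) * q0 ≤ R * R ^ (5 * C + 5) * R ^ (5 * C) := by
            gcongr
            exact b2.trans (mul_le_mul_of_nonneg_right hR (by positivity))
        _ = R ^ (10 * C + 6) := by ring
        _ ≤ _ := hp _ _ (by omega)
    · rw [Nat.cast_mul, mul_assoc]
      refine b3.mono ?_
      have : 16 * (R ^ (5 * C) / N ^ (e + 1)) / ((1 / R ^ (5 * C + 5)) ^ 2 * N) =
          16 * R ^ (15 * C + 10) / N ^ (e + 1 + 1) := by field_simp; ring
      rw [this]
      refine div_le_div_of_nonneg_right ?_ (by positivity)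
      calc 16 * R ^ (15 * C + 10) ≤ R ^ 4 * R ^ (15 * C + 10) :=
            mul_le_mul_of_nonneg_right (by linarith [h2 4]) (by positivity)
        _ = _ := by ring

end Pool.Agent.H016e
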