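import Mathlib
import Pool.Agent.H.MP_016e95_nt.W
import Pool.Agent.H.MP_a23773_nt.B

set_option autoImplicit false

namespace Pool.Agent.H016e

open Finset

/-- the kernel -/
noncomputable def KK (k : ℕ) (t : ℝ) : ℝ := (Real.cos (Real.pi * t) ^ 2) ^ k

noncomputable def pp (k j : ℕ) : ℝ := ((2 * k).choose j : ℝ) / 4 ^ k

lemma KK_nonneg (k : ℕ) (t : ℝ) : 0 ≤ KK k t := by unfold KK; positivity

lemma pp_nonneg (k j : ℕ) : 0 ≤ pp k j := by unfold pp; positivity

lemma sum_pp (k : ℕ) : ∑ j ∈ range (2 * k + 1), pp k j = 1 := by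
  unfold pp
  rw [← sum_div, div_eq_one_iff_eq (by positivity)]
  have := Nat.sum_range_choose (2 * k)
  rw [pow_mul] at this
  exact_mod_cast this

lemma pp_ge (k : ℕ) : 1 ≤ (2 * k + 1) * pp k k := by
  unfold pp
  rw [← mul_div_assoc, one_le_div (by positivity)]
  exact_mod_cast Nat.four_pow_le_two_mul_add_one_mul_central_binom k

lemma pp_le (k : ℕ) : pp k k ^ 2 * (2 * k + 1) ≤ 1 := by
  induction k with
  | zero => simp [pp]
  | succ k ih =>
    have h1 : ((k : ℝ) + 1) * (2 * (k + 1)).choose (k + 1) = 2 * (2 * k + 1) * (2 * k).choose k := by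
      exact_mod_cast Nat.succ_mul_centralBinom_succ k
    have h2 : pp (k + 1) (k + 1) = pp k k * ((2 * k + 1) / (2 * k + 2)) := by
      unfold pp
      field_simp
      linear_combination 2 * 4 ^ k * h1
    rw [h2, mul_pow, mul_assoc]
    refine le_trans (mul_le_mul_of_nonneg_left ?_ (sq_nonneg _)) ih
    rw [div_pow, div_mul_eq_mul_div, div_le_iff₀ (by positivity)]
    push_cast
    nlinarith [Nat.cast_nonneg (α := ℝ) k]

lemma KK_eq (k : ℕ) (t : ℝ) :
    (KK k t : ℂ) = ∑ j ∈ range (2 * k + 1), (pp k j : ℂ) * ee ((((j : ℤ) - k : ℤ) : ℝ) * t) := by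
  have h1 : (Real.cos (Real.pi * t) : ℂ) = (ee (t / 2) + ee (-(t / 2))) / 2 := by
    rw [Complex.ofReal_cos, Complex.cos]
    unfold ee
    congr 3 <;> push_cast <;> ring
  unfold KK pp
  rw [← pow_mul, Complex.ofReal_pow, h1, div_pow, add_pow, sum_div]
  refine sum_congr rfl fun j hj => ?_
  have hj' : j ≤ 2 * k := Nat.lt_succ_iff.mp (mem_range.mp hj)
  rw [← ee_nat_mul, ← ee_nat_mul, ← ee_add, Nat.cast_sub hj', pow_mul]
  have : (j : ℝ) * (t / 2) + (((2 * k : ℕ) : ℝ) - j) * -(t / 2) = (((j : ℤ) - k : ℤ) : ℝ) * t := by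
    push_cast; ring
  rw [this]
  push_cast
  ring

lemma cos_sq_eq (t : ℝ) : Real.cos (Real.pi * t) ^ 2 = 1 - ‖ee t - 1‖ ^ 2 / 4 := by
  unfold ee
  rw [Complex.norm_exp_I_mul_ofReal_sub_one, Real.norm_eq_abs, sq_abs,
    show 2 * Real.pi * t / 2 = Real.pi * t by ring, Real.cos_sq']
  ring

lemma KK_far (k : ℕ) {t σ : ℝ} (hσ : 0 ≤ σ) (h : ¬ Near t σ) : KK k t ≤ Real.exp (-(4 * σ ^ 2)) ^ k := by
  refine pow_le_pow_left₀ (sq_nonneg _) ?_ k
  have h1 : σ ≤ ‖ee t - 1‖ / 4 := by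
    by_contra hc
    exact h ((near_ee t).mono (not_le.mp hc).le)
  have h2 := Real.add_one_le_exp (-(4 * σ ^ 2))
  rw [cos_sq_eq]
  nlinarith

lemma KK_near (k : ℕ) {t σ : ℝ} (h : Near t σ) (hk : k * (10 * σ ^ 2) ≤ 1 / 2) (hk1 : 1 ≤ k) :
    1 / 2 ≤ KK k t := by
  obtain ⟨z, hz⟩ := h
  have h1 : ‖ee t - 1‖ ≤ 2 * Real.pi * σ := by
    have e : ee t = ee (t - z) := by rw [sub_eq_add_neg, ee_add, ← Int.cast_neg, ee_int, mul_one]
    rw [e]
    refine Real.norm_exp_I_mul_ofReal_sub_one_le.trans ?_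
    rw [Real.norm_eq_abs, abs_mul, abs_of_pos (by positivity : 0 < 2 * Real.pi)]
    exact mul_le_mul_of_nonneg_left hz (by positivity)
  have h2 : ‖ee t - 1‖ ^ 2 ≤ 40 * σ ^ 2 := by
    refine (pow_le_pow_left₀ (norm_nonneg _) h1 2).trans ?_
    have := Real.pi_lt_d2
    have := Real.pi_pos
    rw [mul_pow]
    exact mul_le_mul_of_nonneg_right (by nlinarith) (sq_nonneg _)
  have hk' : (1 : ℝ) ≤ k := by exact_mod_cast hk1
  have h3 : 10 * σ ^ 2 ≤ 1 / 2 := by nlinarith [sq_nonneg σ]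
  have h4 := one_add_mul_le_pow (a := -(10 * σ ^ 2)) (by linarith) k
  have h5 : (1 + -(10 * σ ^ 2)) ^ k ≤ KK k t :=
    pow_le_pow_left₀ (by linarith) (by rw [cos_sq_eq]; linarith) k
  linarith

lemma sum_ee_zero (N : ℕ) (h : ℤ) (h0 : h ≠ 0) (hN : |h| < N) :
    ∑ s ∈ range N, ee (s * (h / N)) = 0 := by
  have hN0 : (0 : ℝ) < N := by
    have : (0 : ℤ) < N := lt_of_le_of_lt (abs_nonneg h) hN
    exact_mod_cast this
  simp only [ee_nat_mul]
  have h1 := geom_sum_mul (ee (h / N)) N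
  rw [← ee_nat_mul, mul_div_cancel₀ _ hN0.ne', ee_int, sub_self] at h1
  refine (mul_eq_zero.mp h1).resolve_right fun hc => ?_
  obtain ⟨z, hz⟩ := near_ee (h / N)
  rw [hc, norm_zero, zero_div, abs_nonpos_iff, sub_eq_zero, div_eq_iff hN0.ne'] at hz
  have h2 : h = z * N := by exact_mod_cast hz
  exact h0 (Int.eq_zero_of_abs_lt_dvd ⟨z, by rw [h2, mul_comm]⟩ hN)

lemma sum_KK (k N : ℕ) (hk : k < N) (y : ℝ) : ∑ s ∈ range N, KK k ((y - s) / N) = N * pp k k := by
  have : ((∑ s ∈ range N, KK k ((y - s) / N) : ℝ) : ℂ) = ((N * pp k k : ℝ) : ℂ) := by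
    rw [Complex.ofReal_sum]
    simp only [KK_eq]
    rw [sum_comm, sum_eq_single_of_mem k (mem_range.mpr (by omega))]
    · simp [ee_zero]
    · intro j hj hjk
      have hj' := mem_range.mp hj
      have e : ∀ s : ℕ, ee ((((j : ℤ) - k : ℤ) : ℝ) * ((y - s) / N)) =
          ee ((((j : ℤ) - k : ℤ) : ℝ) * (y / N)) * ee (s * ((((k : ℤ) - j : ℤ) : ℝ) / N)) := by
        intro s; rw [← ee_add]; congr 1; push_cast; ring
      simp only [e]
      rw [← mul_sum, ← mul_sum, sum_ee_zero N _ (by omega) (by rw [abs_lt]; omega)]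
      simp
  exact_mod_cast this

lemma sum_KK_le (k N : ℕ) (t : ℕ → ℝ) (ε : ℝ) (hε : 0 ≤ ε)
    (H : ∀ h : ℤ, h ≠ 0 → |h| ≤ k → ‖∑ n ∈ range N, ee (h * t n)‖ ≤ ε) :
    ∑ n ∈ range N, KK k (t n) ≤ pp k k * N + ε := by
  have h1 : ∑ n ∈ range N, KK k (t n) = ‖((∑ n ∈ range N, KK k (t n) : ℝ) : ℂ)‖ := by
    rw [Complex.norm_real, Real.norm_eq_abs, abs_of_nonneg (sum_nonneg fun _ _ => KK_nonneg _ _)]
  rw [h1, Complex.ofReal_sum]
  simp only [KK_eq]
  rw [sum_comm]
  refine (norm_sum_le _ _).trans ?_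
  have h2 : ∀ j ∈ range (2 * k + 1), ‖∑ n ∈ range N, (pp k j : ℂ) * ee ((((j : ℤ) - k : ℤ) : ℝ) * t n)‖
      ≤ (if j = k then pp k k * N else 0) + pp k j * ε := by
    intro j hj
    have hj' := mem_range.mp hj
    rw [← mul_sum, norm_mul, Complex.norm_real, Real.norm_eq_abs, abs_of_nonneg (pp_nonneg _ _)]
    split_ifs with h
    · subst h
      have := mul_nonneg (pp_nonneg j j) hε
      simp only [sub_self, Int.cast_zero, zero_mul, ee_zero, sum_const, card_range, nsmul_eq_mul,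
        mul_one, Complex.norm_natCast]
      linarith
    · rw [zero_add]
      exact mul_le_mul_of_nonneg_left (H _ (by omega) (by rw [abs_le]; omega)) (pp_nonneg _ _)
  refine (sum_le_sum h2).trans (le_of_eq ?_)
  rw [sum_add_distrib, ← sum_mul, sum_pp, one_mul, sum_ite_eq', if_pos (mem_range.mpr (by omega))]

/-- weighted sums of a centred function of one digit are controlled by exponential sums -/
lemma smooth (Q B R : ℕ) (hB : 0 < B) (hR : 5 * B ≤ R) (hk : R ^ 9 < Q * B) (v : ℕ → ℝ)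
    (hv0 : ∑ u ∈ range B, v u = 0) (hv1 : ∀ u < B, |v u| ≤ 1) (y : ℕ → ℕ) (W : ℕ → ℂ)
    (hW : ∀ n, ‖W n‖ ≤ 1) (N : ℕ) (ε1 ε2 : ℝ) (h1 : 0 ≤ ε1) (h2 : 0 ≤ ε2)
    (H1 : ∀ h : ℤ, |h| ≤ (R ^ 9 : ℕ) → ¬ (B : ℤ) ∣ h →
      ‖∑ n ∈ range N, W n * ee (h * (y n / (Q * B : ℕ)))‖ ≤ ε1)
    (H2 : ∀ h : ℤ, h ≠ 0 → |h| ≤ (R ^ 2 : ℕ) → ‖∑ n ∈ range N, ee (h * (y n / Q))‖ ≤ ε2) :
    ‖∑ n ∈ range N, W n * v (y n / Q % B)‖ ≤ 3 * R ^ 9 * ε1 + 4 * ε2 + 5 * N / R := by
  obtain ⟨k, hkd⟩ : ∃ k, k = R ^ 9 := ⟨_, rfl⟩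
  obtain ⟨M, hM⟩ : ∃ M, M = Q * B := ⟨_, rfl⟩
  rw [← hkd, ← hM] at hk H1
  have hQ : 0 < Q := Nat.pos_of_mul_pos_right (hM ▸ (by omega : 0 < M))
  have hM0 : (0 : ℝ) < M := by exact_mod_cast (by omega : 0 < M)
  have hQ0 : (0 : ℝ) < Q := by exact_mod_cast hQ
  have hB1 : (1 : ℝ) ≤ B := by exact_mod_cast hB
  have hR' : 5 * (B : ℝ) ≤ R := by exact_mod_cast hR
  have hR0 : (0 : ℝ) < R := by linarith
  have hkR : (k : ℝ) = R ^ 9 := by exact_mod_cast hkd
  have hk1 : (1 : ℝ) ≤ k := hkR ▸ one_le_pow₀ (by linarith)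
  have hp := pp_ge k
  have hp0 : 0 < pp k k := by
    by_contra hc
    nlinarith [pp_nonneg k k]
  have hp1 : 1 / pp k k ≤ 3 * k := by rw [div_le_iff₀ hp0]; nlinarith
  set V : ℕ → ℝ := fun s => v (s / Q % B) with hV
  have hV1 : ∀ s, |V s| ≤ 1 := fun s => hv1 _ (Nat.mod_lt _ hB)
  set Vt : ℕ → ℝ := fun x => (∑ s ∈ range M, V s * KK k ((x - s) / M)) / (M * pp k k) with hVt
  have a1 : ∀ x : ℕ, |V x - Vt x| ≤ 1 / R + 4 * KK (R ^ 2) (x / Q) := by
    intro x
    have e : V x - Vt x = (∑ s ∈ range M, (V x - V s) * KK k ((x - s) / M)) / (M * pp k k) := by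
      simp only [hVt, sub_mul, sum_sub_distrib, ← mul_sum, sum_KK k M hk]
      field_simp
    have hd : ∀ s, |V x - V s| ≤ 2 := fun s => (abs_sub _ _).trans (by linarith [hV1 x, hV1 s])
    rw [e, abs_div, abs_of_pos (by positivity : 0 < M * pp k k)]
    by_cases hn : Near (x / Q) (B / R ^ 2)
    · have b1 := KK_near (R ^ 2) hn (by
        push_cast
        rw [show (R : ℝ) ^ 2 * (10 * (B / R ^ 2) ^ 2) = 10 * B ^ 2 / R ^ 2 by field_simp,
          div_le_iff₀ (by positivity)]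
        nlinarith) (Nat.one_le_pow _ _ (by omega))
      have b2 : |∑ s ∈ range M, (V x - V s) * KK k ((x - s) / M)| / (M * pp k k) ≤ 2 := by
        rw [div_le_iff₀ (by positivity), ← sum_KK k M hk x, mul_sum]
        refine (abs_sum_le_sum_abs _ _).trans (sum_le_sum fun s _ => ?_)
        rw [abs_mul, abs_of_nonneg (KK_nonneg _ _)]
        exact mul_le_mul_of_nonneg_right (hd s) (KK_nonneg _ _)
      have : (0 : ℝ) ≤ 1 / R := by positivity
      linarith
    · have b0 : Real.exp (-(4 * (1 / (R : ℝ) ^ 2) ^ 2)) ^ k ≤ 1 / (8 * R ^ 10) := by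
        rw [← Real.exp_nat_mul, hkR, show (R : ℝ) ^ 9 * -(4 * (1 / R ^ 2) ^ 2) = -(4 * R ^ 5) by
          field_simp, Real.exp_neg, ← one_div]
        refine one_div_le_one_div_of_le (by positivity) ?_
        have := Real.quadratic_le_exp_of_nonneg (by positivity : (0 : ℝ) ≤ 4 * R ^ 5)
        have : (0 : ℝ) ≤ R ^ 5 := by positivity
        nlinarith
      have b1 : ∀ s ∈ range M, |(V x - V s) * KK k ((x - s) / M)| ≤ 2 * (1 / (8 * R ^ 10)) := by
        intro s _
        by_cases hs : Near (((x : ℝ) - s) / M) (1 / R ^ 2)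
        · obtain ⟨z, hz⟩ := hs
          have c0 : ((x / Q : ℕ) : ℤ) = (s / Q : ℕ) + z * B := by
            have d1 : (x : ℝ) = Q * (x / Q : ℕ) + (x % Q : ℕ) := by
              exact_mod_cast (Nat.div_add_mod x Q).symm
            have d2 : (s : ℝ) = Q * (s / Q : ℕ) + (s % Q : ℕ) := by
              exact_mod_cast (Nat.div_add_mod s Q).symm
            have d3 : ((x % Q : ℕ) : ℝ) < Q := by exact_mod_cast Nat.mod_lt x hQ
            have d4 : ((s % Q : ℕ) : ℝ) < Q := by exact_mod_cast Nat.mod_lt s hQ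
            have d5 : (0 : ℝ) ≤ (x % Q : ℕ) := Nat.cast_nonneg _
            have d6 : (0 : ℝ) ≤ (s % Q : ℕ) := Nat.cast_nonneg _
            have d7 : B / R ^ 2 < ((x % Q : ℕ) : ℝ) / Q := by
              by_contra hc
              refine hn ⟨(x / Q : ℕ), ?_⟩
              rw [Int.cast_natCast, show (x : ℝ) / Q - (x / Q : ℕ) = (x % Q : ℕ) / Q by
                rw [eq_div_iff hQ0.ne', sub_mul, div_mul_cancel₀ _ hQ0.ne']; linarith,
                abs_of_nonneg (by positivity)]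
              exact not_lt.mp hc
            have d8 : B / R ^ 2 < (Q - ((x % Q : ℕ) : ℝ)) / Q := by
              by_contra hc
              refine hn ⟨(x / Q : ℕ) + 1, ?_⟩
              rw [Int.cast_add, Int.cast_natCast, Int.cast_one, abs_sub_comm,
                show ((x / Q : ℕ) + 1 : ℝ) - (x : ℝ) / Q = (Q - (x % Q : ℕ)) / Q by
                rw [eq_div_iff hQ0.ne', sub_mul, div_mul_cancel₀ _ hQ0.ne']; linarith,
                abs_of_nonneg (div_nonneg (by linarith) hQ0.le)]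
              exact not_lt.mp hc
            have d9 : |(x : ℝ) - s - z * (Q * B)| ≤ B / R ^ 2 * Q := by
              have hM' : (M : ℝ) = Q * B := by exact_mod_cast hM
              rw [show ((x : ℝ) - s) / M - z = (x - s - z * (Q * B)) / M by
                rw [← hM']; field_simp, abs_div, abs_of_pos hM0, div_le_iff₀ hM0] at hz
              refine hz.trans (le_of_eq ?_)
              rw [hM']; ring
            rw [lt_div_iff₀ hQ0] at d7 d8
            rw [abs_le] at d9
            generalize x / Q = a at *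
            generalize s / Q = b at *
            have f1 : Q * ((a : ℝ) - b - z * B) < Q * 1 := by linarith [d9.2]
            have f2 : Q * (-1 : ℝ) < Q * ((a : ℝ) - b - z * B) := by linarith [d9.1]
            have f3 : (((a : ℤ) - b - z * B : ℤ) : ℝ) < (1 : ℤ) := by
              push_cast; exact lt_of_mul_lt_mul_left f1 hQ0.le
            have f4 : ((-1 : ℤ) : ℝ) < (((a : ℤ) - b - z * B : ℤ) : ℝ) := by
              push_cast; exact lt_of_mul_lt_mul_left f2 hQ0.le
            have f5 := Int.cast_lt.mp f3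
            have f6 := Int.cast_lt.mp f4
            omega
          have c1 : x / Q % B = s / Q % B := by
            have : ((x / Q % B : ℕ) : ℤ) = (s / Q % B : ℕ) := by
              rw [Int.natCast_mod, Int.natCast_mod, c0, Int.add_mul_emod_self_right]
            exact_mod_cast this
          simp only [hV, c1, sub_self, zero_mul, abs_zero]
          positivity
        · rw [abs_mul, abs_of_nonneg (KK_nonneg _ _)]
          exact mul_le_mul (hd s) ((KK_far k (by positivity) hs).trans b0) (KK_nonneg _ _)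
            (by norm_num)
      have b2 := (abs_sum_le_sum_abs _ _).trans (sum_le_card_nsmul _ _ _ b1)
      rw [card_range, nsmul_eq_mul] at b2
      have b3 : |∑ s ∈ range M, (V x - V s) * KK k ((x - s) / M)| / (M * pp k k) ≤ 1 / R := by
        calc _ ≤ M * (2 * (1 / (8 * R ^ 10))) / (M * pp k k) :=
            div_le_div_of_nonneg_right b2 (by positivity)
          _ = 1 / pp k k * (1 / (4 * R ^ 10)) := by field_simp; ring
          _ ≤ 3 * R ^ 9 * (1 / (4 * R ^ 10)) :=
            mul_le_mul_of_nonneg_right (hkR ▸ hp1) (by positivity)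
          _ = 3 / 4 * (1 / R) := by field_simp
          _ ≤ _ := mul_le_of_le_one_left (by positivity) (by norm_num)
      linarith [KK_nonneg (R ^ 2) (x / Q)]
  have a2 : ‖∑ n ∈ range N, W n * Vt (y n)‖ ≤ 3 * R ^ 9 * ε1 := by
    have e : ∑ n ∈ range N, W n * Vt (y n) = ∑ j ∈ range (2 * k + 1), ((pp k j / pp k k : ℝ) : ℂ) *
        (((∑ s ∈ range M, V s * ee (-((((j : ℤ) - k : ℤ) : ℝ) * (s / M)))) / M) *
          ∑ n ∈ range N, W n * ee ((((j : ℤ) - k : ℤ) : ℝ) * (y n / M))) := by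
      simp only [hVt, Complex.ofReal_div, Complex.ofReal_mul, Complex.ofReal_sum, KK_eq, mul_sum,
        sum_div, sum_mul, Complex.ofReal_natCast]
      rw [sum_comm (s := range (2 * k + 1))]
      refine sum_congr rfl fun n _ => ?_
      rw [sum_comm]
      refine sum_congr rfl fun j _ => sum_congr rfl fun s _ => ?_
      rw [show (((j : ℤ) - k : ℤ) : ℝ) * ((y n - s) / M) = (((j : ℤ) - k : ℤ) : ℝ) * (y n / M) +
        -((((j : ℤ) - k : ℤ) : ℝ) * (s / M)) by ring, ee_add]
      ring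
    rw [e]
    refine (norm_sum_le _ _).trans ((sum_le_sum (g := fun j => pp k j / pp k k * ε1)
      fun j hj => ?_).trans ?_)
    · have hj' := mem_range.mp hj
      rw [norm_mul, Complex.norm_real, Real.norm_eq_abs,
        abs_of_nonneg (div_nonneg (pp_nonneg _ _) hp0.le)]
      refine mul_le_mul_of_nonneg_left ?_ (div_nonneg (pp_nonneg _ _) hp0.le)
      generalize hh : ((j : ℤ) - k : ℤ) = h
      by_cases hd : (B : ℤ) ∣ h
      · obtain ⟨c, rfl⟩ := hd
        have : ∑ s ∈ range M, (V s : ℂ) * ee (-((((B : ℤ) * c : ℤ) : ℝ) * (s / M))) = 0 := by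
          have e1 : ∀ F : ℕ → ℂ, ∑ s ∈ range M, F s =
              ∑ u ∈ range B, ∑ lo ∈ range Q, F (lo + Q * u) := by
            intro F
            rw [hM]
            clear * -
            induction B with
            | zero => simp
            | succ B ih =>
              rw [Nat.mul_succ, sum_range_add, ih, sum_range_succ]
              simp only [add_comm]
          rw [e1, sum_comm]
          refine sum_eq_zero fun lo hlo => ?_
          have e2 : ∀ u ∈ range B, (V (lo + Q * u) : ℂ) *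
              ee (-((((B : ℤ) * c : ℤ) : ℝ) * (((lo + Q * u : ℕ) : ℝ) / M))) =
              v u * ee (-(c * (lo / Q))) := by
            intro u hu
            have hM' : (M : ℝ) = Q * B := by exact_mod_cast hM
            rw [show -((((B : ℤ) * c : ℤ) : ℝ) * (((lo + Q * u : ℕ) : ℝ) / M)) =
              -(c * (lo / Q)) + ((-(c * u) : ℤ) : ℝ) by rw [hM']; push_cast; field_simp; ring,
              ee_add, ee_int, mul_one]
            simp only [hV]
            rw [Nat.add_mul_div_left _ _ hQ, Nat.div_eq_of_lt (mem_range.mp hlo), zero_add,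
              Nat.mod_eq_of_lt (mem_range.mp hu)]
          rw [sum_congr rfl e2, ← sum_mul, ← Complex.ofReal_sum, hv0]
          simp
        rw [this]
        simpa using h1
      · rw [norm_mul]
        refine (mul_le_mul ?_ (H1 h (by rw [abs_le]; omega) hd) (norm_nonneg _) zero_le_one).trans
          (one_mul _).le
        rw [norm_div, Complex.norm_natCast, div_le_one hM0]
        refine (norm_sum_le _ _).trans ((sum_le_card_nsmul _ _ 1 fun s _ => ?_).trans (by simp))
        rw [norm_mul, norm_ee, mul_one, Complex.norm_real]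
        exact hV1 s
    · rw [← sum_mul, ← sum_div, sum_pp]
      exact mul_le_mul_of_nonneg_right (hkR ▸ hp1) h1
  have a3 := sum_KK_le (R ^ 2) N (fun n => y n / Q) ε2 h2 H2
  have a4 : pp (R ^ 2) (R ^ 2) ≤ 1 / R := by
    have := pp_le (R ^ 2)
    push_cast at this
    rw [le_div_iff₀ hR0]
    nlinarith [pp_nonneg (R ^ 2) (R ^ 2), sq_nonneg (pp (R ^ 2) (R ^ 2) * R - 1),
      sq_nonneg (pp (R ^ 2) (R ^ 2))]
  have a5 : ‖∑ n ∈ range N, W n * ((V (y n) - Vt (y n) : ℝ) : ℂ)‖ ≤ 4 * ε2 + 5 * N / R := by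
    refine (norm_sum_le _ _).trans ((sum_le_sum (g := fun n => 1 / R + 4 * KK (R ^ 2) (y n / Q))
      fun n _ => ?_).trans ?_)
    · rw [norm_mul, Complex.norm_real]
      exact (mul_le_of_le_one_left (norm_nonneg _) (hW n)).trans (a1 _)
    · rw [sum_add_distrib, ← mul_sum, sum_const, card_range, nsmul_eq_mul]
      have := mul_le_mul_of_nonneg_right a4 (Nat.cast_nonneg N)
      have e : 5 * (N : ℝ) / R = N * (1 / R) + 4 * (1 / R * N) := by ring
      linarith
  have e : ∑ n ∈ range N, W n * v (y n / Q % B) = ∑ n ∈ range N, W n * Vt (y n) +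
      ∑ n ∈ range N, W n * ((V (y n) - Vt (y n) : ℝ) : ℂ) := by
    rw [← sum_add_distrib]
    exact sum_congr rfl fun n _ => by simp only [hV]; push_cast; ring
  rw [e]
  linarith [norm_add_le (∑ n ∈ range N, W n * Vt (y n))
    (∑ n ∈ range N, W n * ((V (y n) - Vt (y n) : ℝ) : ℂ))]

end Pool.Agent.H016e
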