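import Mathlib
import Pool.Agent.H.MP_016e95_nt.F

set_option autoImplicit false

namespace Pool.Agent.H016e

open Finset Ha237

/-- the exponent in the inverse Weyl inequality -/
noncomputable def CW (e : ℕ) : ℕ := (weyl e).choose

lemma Deg.smul {e : ℕ} {γ : ℝ} {φ : ℕ → ℝ} (H : Deg e γ φ) (α : ℝ) :
    Deg e (α * γ) fun n => α * φ n := fun n => by
  have := congrFun (fwdDiff_iter_const_smul 1 α φ e) n
  rw [Pi.smul_apply, H n] at this
  exact this

/-- exponential sums with frequencies of denominator `U * B ^ k`, `k ≤ hi`, are at most `ε` -/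
def ES (y : ℕ → ℕ) (N U B hi Z : ℕ) (ε : ℝ) : Prop :=
  ∀ k ≤ hi, ∀ num : ℤ, (∀ a : ℤ, a ≠ 0 → |a| ≤ Z → ¬ (B : ℤ) ^ k ∣ a * num) →
    ‖∑ n ∈ range N, ee (num * (y n / (U * B ^ k : ℕ)))‖ ≤ ε

lemma expsum (e : ℕ) (y : ℕ → ℕ) (Λ : ℤ) (hΛ : Λ ≠ 0) (μ den U B hi Z N N' : ℕ) (hden : 0 < den)
    (hU : 0 < U) (hB : 0 < B) (hμ : Nat.Coprime B μ) (hy : Deg (e + 1) (Λ * μ / den) fun n => y n)
    (R : ℝ) (hR : 2 ≤ R) (hN' : N' ≤ N) (h1 : R ^ CW e ≤ N) (h2 : R ^ CW e * |(Λ : ℝ)| ≤ Z)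
    (h3 : (den * U * B ^ hi : ℕ) * R ^ CW e < (N : ℝ) ^ (e + 1)) : ES y N' U B hi Z (N / R) := by
  intro k hk num hnum
  by_contra hc
  have hW : (0 : ℝ) < (U * B ^ k : ℕ) := by positivity
  have hd : (0 : ℝ) < den := by exact_mod_cast hden
  obtain ⟨q, q1, q2, z, hz⟩ := (weyl e).choose_spec.2 _ _ (hy.smul (num / (U * B ^ k : ℕ))) N N' R
    hN' hR h1 (by
      refine (not_le.mp hc).le.trans (le_of_eq ?_)
      congr 1
      exact sum_congr rfl fun n _ => by congr 1; ring)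
  refine hnum (q * Λ) (mul_ne_zero (by omega) hΛ) ?_ ?_
  · have : |(q : ℝ) * Λ| ≤ Z := by
      rw [abs_mul, Nat.abs_cast]
      exact (mul_le_mul_of_nonneg_right q2 (abs_nonneg _)).trans h2
    exact_mod_cast this
  · have hN0 : (0 : ℝ) < N := lt_of_lt_of_le (by positivity) h1
    have a1 : |((q * Λ * num * μ - z * (den * (U * B ^ k : ℕ)) : ℤ) : ℝ)| < 1 := by
      have e1 : ((q * Λ * num * μ - z * (den * (U * B ^ k : ℕ)) : ℤ) : ℝ) =
          (q * (num / (U * B ^ k : ℕ) * (Λ * μ / den)) - z) * (den * (U * B ^ k : ℕ)) := by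
        simp only [Int.cast_sub, Int.cast_mul, Int.cast_natCast]
        field_simp
      rw [e1, abs_mul, abs_of_pos (mul_pos hd hW)]
      refine (mul_le_mul_of_nonneg_right hz (by positivity)).trans_lt ?_
      rw [div_mul_eq_mul_div, div_lt_one (by positivity)]
      refine lt_of_le_of_lt ?_ h3
      rw [mul_comm]
      refine mul_le_mul_of_nonneg_right ?_ (by positivity)
      have : den * (U * B ^ k) ≤ den * U * B ^ hi := by
        rw [← mul_assoc]; exact Nat.mul_le_mul_left _ (Nat.pow_le_pow_right hB hk)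
      exact_mod_cast this
    have a2 : q * Λ * num * μ - z * (den * (U * B ^ k : ℕ)) = 0 :=
      Int.abs_lt_one_iff.mp (by exact_mod_cast a1)
    have a3 : (B : ℤ) ^ k ∣ q * Λ * num * μ := ⟨z * den * U, by push_cast at a2; linarith⟩
    exact ((Nat.isCoprime_iff_coprime.mpr hμ).pow_left).dvd_of_dvd_mul_right a3

lemma nd1 {a h m : ℤ} {Z H : ℕ} (ha : a ≠ 0) (hZ : |a| ≤ Z) (h0 : h ≠ 0) (hH : |h| ≤ H)
    (hm : ((Z * H : ℕ) : ℤ) < m) : ¬ m ∣ a * h := fun hd =>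
  mul_ne_zero ha h0 (Int.eq_zero_of_abs_lt_dvd hd (by
    rw [abs_mul]
    exact (mul_le_mul hZ hH (abs_nonneg _) (by positivity)).trans_lt (by exact_mod_cast hm)))

lemma nd2 {a h1 h2 : ℤ} {Z H B d k : ℕ} (ha : a ≠ 0) (hZ : |a| ≤ Z) (h0 : ¬ (B : ℤ) ∣ h2)
    (hH1 : |h1| ≤ H) (hH2 : |h2| ≤ H) (hd : 1 ≤ d) (hk : d ≤ k) (hm : 2 * (Z * H) ^ 2 < B ^ k) :
    ¬ (B : ℤ) ^ k ∣ a * (h1 * B ^ d + h2) := by
  intro hdv
  have h20 : h2 ≠ 0 := by rintro rfl; exact h0 (dvd_zero _)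
  by_cases hc : Z * H < B ^ d
  · refine nd1 ha hZ h20 hH2 (m := (B : ℤ) ^ d) (by exact_mod_cast hc) ?_
    have := (pow_dvd_pow (B : ℤ) hk).trans hdv
    rw [mul_add] at this
    exact (dvd_add_right ((Dvd.intro_left _ rfl).mul_left a)).mp this
  · refine nd1 (H := H * (Z * H) + H) ha hZ ?_ ?_ ?_ hdv
    · intro h
      exact h0 ((dvd_add_right ((dvd_pow_self _ (by omega)).mul_left h1)).mp (h ▸ dvd_zero _))
    · refine (abs_add_le _ _).trans ?_
      have : ((B : ℤ) ^ d) ≤ (Z * H : ℕ) := by exact_mod_cast not_lt.mp hc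
      rw [abs_mul, abs_of_nonneg (by positivity : (0 : ℤ) ≤ B ^ d), Nat.cast_add, Nat.cast_mul H]
      exact add_le_add (mul_le_mul hH1 this (by positivity) (by positivity)) hH2
    · have a1 : 1 ≤ Z * H := le_trans (Nat.one_le_iff_ne_zero.mpr (by
        intro h
        have hB : B = 0 := (Nat.pow_eq_zero.mp h).1
        rw [hB, zero_pow (by omega)] at hm
        omega)) (not_lt.mp hc)
      have a2 : Z * (H * (Z * H) + H) < B ^ k := by nlinarith
      exact_mod_cast a2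

section
variable {y : ℕ → ℕ} {N' U B hi Z R : ℕ} {N : ℝ} (hE : ES y N' U B hi Z (N / R ^ 100))
  (hB : 0 < B) (hU : 0 < U) (hR : 5 * B ≤ R) (hZ : 1 ≤ Z) (hN : (N' : ℝ) ≤ N)
include hE hB hU hR hZ hN

lemma weighted (R' : ℕ) (hR1 : R ≤ R') (hR2 : R' ≤ R ^ 10) {q : ℕ} (hq : q < hi)
    (hlo : 2 * (Z * R ^ 90) ^ 2 < B ^ q) (v : ℕ → ℝ) (hv0 : ∑ u ∈ range B, v u = 0)
    (hv1 : ∀ u < B, |v u| ≤ 1) (W : ℕ → ℂ) (hW : ∀ n, ‖W n‖ ≤ 1) (ε : ℝ) (hε : 0 ≤ ε)
    (H1 : ∀ h : ℤ, |h| ≤ (R ^ 90 : ℕ) → ¬ (B : ℤ) ∣ h →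
      ‖∑ n ∈ range N', W n * ee (h * (y n / (U * B ^ (q + 1) : ℕ)))‖ ≤ ε) :
    ‖∑ n ∈ range N', W n * v (dig U B q (y n))‖ ≤ 3 * R' ^ 9 * ε + 9 * N / R' := by
  have a0 : 1 ≤ R' := by omega
  have a1 : R' ^ 9 ≤ R ^ 90 := by
    rw [show 90 = 10 * 9 by norm_num, pow_mul]; exact Nat.pow_le_pow_left hR2 9
  have a2 : R' ^ 2 ≤ R ^ 90 := (Nat.pow_le_pow_right a0 (by norm_num)).trans a1
  have a3 : R ^ 90 ≤ Z * R ^ 90 := Nat.le_mul_of_pos_left _ hZ
  have a4 : Z * R ^ 90 < B ^ q := by nlinarith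
  have a5 : B ^ q ≤ U * B ^ q * B :=
    (Nat.le_mul_of_pos_left _ hU).trans (Nat.le_mul_of_pos_right _ hB)
  have hN0 : 0 ≤ N := (Nat.cast_nonneg _).trans hN
  have := smooth (U * B ^ q) B R' hB (by omega) (by omega) v hv0 hv1 y W hW N' ε (N / R ^ 100) hε
    (by positivity)
    (fun h b1 b2 => by
      rw [mul_assoc, ← pow_succ]; exact H1 h (b1.trans (by exact_mod_cast a1)) b2)
    (fun h b1 b2 => hE q hq.le h fun a c1 c2 =>
      nd1 c1 c2 b1 (b2.trans (by exact_mod_cast a2)) (by exact_mod_cast a4))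
  refine this.trans ?_
  have b0 : (0 : ℝ) < R' := by exact_mod_cast a0
  have b1 : N / R ^ 100 ≤ N / R' := div_le_div_of_nonneg_left hN0 b0 (by
    exact_mod_cast hR2.trans (Nat.pow_le_pow_right (by omega) (by norm_num)))
  have b2 : 5 * (N' : ℝ) / R' ≤ 5 * N / R' := by gcongr
  have b3 : 9 * N / R' = 4 * (N / R') + 5 * N / R' := by ring
  linarith

lemma single {q : ℕ} (hq : q < hi) (hlo : 2 * (Z * R ^ 90) ^ 2 < B ^ q) (v : ℕ → ℝ)
    (hv0 : ∑ u ∈ range B, v u = 0) (hv1 : ∀ u < B, |v u| ≤ 1) :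
    |∑ n ∈ range N', v (dig U B q (y n))| ≤ 45 * N / R := by
  have hN0 : 0 ≤ N := (Nat.cast_nonneg _).trans hN
  have hR1 : (1 : ℝ) ≤ R := by exact_mod_cast (by omega : 1 ≤ R)
  have a4 : Z * R ^ 90 < B ^ (q + 1) := by
    have : B ^ q ≤ B ^ (q + 1) := Nat.pow_le_pow_right hB (by omega)
    nlinarith
  have := weighted hE hB hU hR hZ hN R le_rfl (Nat.le_self_pow (by norm_num) R) hq hlo v hv0 hv1
    (fun _ => 1) (by simp) (N / R ^ 100) (by positivity) fun h b1 b2 => by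
      simp only [one_mul]
      exact hE (q + 1) hq h fun a c1 c2 =>
        nd1 c1 c2 (by rintro rfl; exact b2 (dvd_zero _)) b1 (by exact_mod_cast a4)
  simp only [one_mul] at this
  rw [← Complex.ofReal_sum, Complex.norm_real, Real.norm_eq_abs] at this
  refine this.trans ?_
  have b1 : (R : ℝ) ^ 9 * (N / R ^ 100) ≤ N / R := by
    rw [show (R : ℝ) ^ 9 * (N / R ^ 100) = N / R ^ 91 by field_simp]
    exact div_le_div_of_nonneg_left hN0 (by linarith) (le_self_pow₀ hR1 (by norm_num))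
  have b2 : 0 ≤ N / R := by positivity
  rw [mul_div_assoc, mul_div_assoc]
  linarith

lemma pair {q q' : ℕ} (hqq : q < q') (hq : q' < hi) (hlo : 2 * (Z * R ^ 90) ^ 2 < B ^ q) (v : ℕ → ℝ)
    (hv0 : ∑ u ∈ range B, v u = 0) (hv1 : ∀ u < B, |v u| ≤ 1) :
    |∑ n ∈ range N', v (dig U B q (y n)) * v (dig U B q' (y n))| ≤ 45 * N / R := by
  have hN0 : 0 ≤ N := (Nat.cast_nonneg _).trans hN
  have hR1 : (1 : ℝ) ≤ R := by exact_mod_cast (by omega : 1 ≤ R)
  have hpow : ∀ k, q ≤ k → 2 * (Z * R ^ 90) ^ 2 < B ^ k := fun k hk =>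
    hlo.trans_le (Nat.pow_le_pow_right hB hk)
  have := weighted hE hB hU hR hZ hN R le_rfl (Nat.le_self_pow (by norm_num) R) hq (hpow q' hqq.le)
    v hv0 hv1 (fun n => v (dig U B q (y n)))
    (fun n => by rw [Complex.norm_real]; exact hv1 _ (dig_lt U hB _ _)) (12 * N / R ^ 10)
    (by positivity) fun h2 b1 b2 => by
      simp only [mul_comm ((v _ : ℝ) : ℂ)]
      refine (weighted hE hB hU hR hZ hN (R ^ 10) (Nat.le_self_pow (by norm_num) R) le_rfl
        (hqq.trans hq) hlo v hv0 hv1 _ (fun n => (norm_ee _).le) (N / R ^ 100) (by positivity)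
        fun h1 c1 _ => ?_).trans (le_of_eq (by push_cast; field_simp; ring))
      obtain ⟨d, rfl⟩ := Nat.exists_eq_add_of_lt hqq
      refine le_trans (le_of_eq ?_) (hE (q + d + 1 + 1) hq (h1 * B ^ (d + 1) + h2) fun a d1 d2 =>
        nd2 d1 d2 b2 c1 b1 (by omega) (by omega) (hpow _ (by omega)))
      congr 1
      refine sum_congr rfl fun n _ => ?_
      rw [← ee_add]
      congr 1
      push_cast
      field_simp
      ring
  simp only [← Complex.ofReal_mul] at this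
  rw [← Complex.ofReal_sum, Complex.norm_real, Real.norm_eq_abs] at this
  refine this.trans (le_of_eq ?_)
  field_simp
  ring

lemma mid_est {a b : ℕ} (hb : b ≤ hi) (hlo : 2 * (Z * R ^ 90) ^ 2 < B ^ a) (v : ℕ → ℝ)
    (hv0 : ∑ u ∈ range B, v u = 0) (hv1 : ∑ u ∈ range B, v u ^ 2 ≤ 1) :
    |∑ n ∈ range N', (∑ q ∈ Ico a b, v (dig U B q (y n))) ^ 2 -
      N' * ((b - a : ℕ) * ((∑ u ∈ range B, v u ^ 2) / B))| ≤ (b : ℝ) ^ 2 * (45 * N / R) := by
  have hB1 : (1 : ℝ) ≤ B := by exact_mod_cast hB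
  have hN0 : 0 ≤ N := (Nat.cast_nonneg _).trans hN
  set V := ∑ u ∈ range B, v u ^ 2 with hV
  have hV0 : 0 ≤ V := sum_nonneg fun _ _ => sq_nonneg _
  have hsq : ∀ u < B, v u ^ 2 ≤ 1 := fun u hu => (single_le_sum (f := fun u => v u ^ 2)
    (fun _ _ => sq_nonneg _) (mem_range.mpr hu)).trans hv1
  have hv2 : ∀ u < B, |v u| ≤ 1 := fun u hu => (sq_le_one_iff_abs_le_one _).mp (hsq u hu)
  have hpow : ∀ k, a ≤ k → 2 * (Z * R ^ 90) ^ 2 < B ^ k := fun k hk =>
    hlo.trans_le (Nat.pow_le_pow_right hB hk)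
  have e : ∑ n ∈ range N', (∑ q ∈ Ico a b, v (dig U B q (y n))) ^ 2 -
      N' * ((b - a : ℕ) * (V / B)) = ∑ q ∈ Ico a b, ∑ q' ∈ Ico a b, ∑ n ∈ range N',
        (v (dig U B q (y n)) * v (dig U B q' (y n)) - if q = q' then V / B else 0) := by
    simp only [sq, sum_mul_sum, sum_sub_distrib]
    rw [sum_comm]
    congr 1
    · exact sum_congr rfl fun q _ => sum_comm
    · rw [sum_congr rfl (g := fun _ => N' * (V / B)) fun q hq => by simp [hq]]
      simp; ring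
  rw [e]
  have hc : ((Ico a b).card : ℝ) ≤ b := by
    rw [Nat.card_Ico]; exact_mod_cast Nat.sub_le b a
  have h0 : 0 ≤ 45 * N / R := by positivity
  refine (abs_sum_le_sum_abs _ _).trans ((sum_le_card_nsmul _ _ (b * (45 * N / R)) fun q hq =>
    (abs_sum_le_sum_abs _ _).trans ((sum_le_card_nsmul _ _ (45 * N / R) fun q' hq' => ?_).trans
      ?_)).trans ?_)
  · obtain ⟨q1, q2⟩ := mem_Ico.mp hq
    obtain ⟨q3, q4⟩ := mem_Ico.mp hq'
    rcases lt_trichotomy q q' with h | rfl | h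
    · simp only [h.ne, if_false, sub_zero]
      exact pair hE hB hU hR hZ hN h (by omega) (hpow q q1) v hv0 hv2
    · simp only [if_true]
      refine single hE hB hU hR hZ hN (by omega) (hpow q q1) (fun u => v u * v u - V / B) ?_ ?_
      · rw [sum_sub_distrib, sum_const, card_range, nsmul_eq_mul, mul_div_cancel₀ _ (by linarith)]
        simp only [hV, sq, sub_self]
      · intro u hu
        have b1 : V / B ≤ 1 := div_le_one_of_le₀ (hv1.trans hB1) (by linarith)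
        have b2 : 0 ≤ V / B := by positivity
        have := hsq u hu
        rw [abs_le]
        constructor <;> nlinarith [mul_self_nonneg (v u)]
    · simp only [h.ne', if_false, sub_zero, mul_comm (v (dig U B q _))]
      exact pair hE hB hU hR hZ hN h (by omega) (hpow q' q3) v hv0 hv2
  · rw [nsmul_eq_mul]; exact mul_le_mul_of_nonneg_right hc h0
  · rw [nsmul_eq_mul, sq, mul_assoc]
    exact mul_le_mul_of_nonneg_right hc (by positivity)

end

end Pool.Agent.H016e
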