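import Mathlib
import Pool.Agent.H.MP_016e95_nt.T

set_option autoImplicit false

namespace Pool.Agent.H016e

open Finset Ha237

lemma per_rem (e P c N : ℕ) (he : 0 < e) (hP : Nat.Coprime e P) (hP0 : 0 < P) (g : ℕ → ℝ) (M : ℝ)
    (hM : ∀ n, |g n| ≤ M) (hg : ∀ n n', n % P = n' % P → g n = g n') :
    |∑ n ∈ range N, (if e ∣ c + n then g n else 0) - (∑ n ∈ range N, g n) / e| ≤ 3 * (M * P) := by
  have h1 := window e P (N / P) 1 c he hP g M hM fun n n' a _ => hg n n' a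
  have h2 : N = P * (N / P * 1) + N % P := by rw [mul_one, Nat.div_add_mod]
  have hM0 : 0 ≤ M := (abs_nonneg _).trans (hM 0)
  have he' : (1 : ℝ) ≤ e := by exact_mod_cast he
  generalize P * (N / P * 1) = K at h1 h2
  have h3 : |∑ x ∈ range (N % P), ((if e ∣ c + (K + x) then g (K + x) else 0) - g (K + x) / e)| ≤
      P * (2 * M) := by
    refine (abs_sum_le_sum_abs _ _).trans ((sum_le_card_nsmul _ _ (2 * M) fun x _ => ?_).trans ?_)
    · have a1 : |g (K + x) / e| ≤ M := by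
        rw [abs_div, abs_of_pos (by linarith : (0 : ℝ) < e)]
        exact (div_le_self (abs_nonneg _) he').trans (hM _)
      have a2 : |if e ∣ c + (K + x) then g (K + x) else 0| ≤ M := by
        split_ifs
        · exact hM _
        · simpa using hM0
      exact (abs_sub _ _).trans (by linarith)
    · rw [card_range, nsmul_eq_mul]
      exact mul_le_mul_of_nonneg_right (by exact_mod_cast (Nat.mod_lt N hP0).le) (by linarith)
  rw [sum_sub_distrib, ← sum_div] at h3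
  rw [h2, sum_range_add, sum_range_add, add_div]
  rw [abs_le] at h1 h3 ⊢
  simp only [Nat.cast_one, mul_one] at h1
  constructor <;> linarith [h1.1, h1.2, h3.1, h3.2]

lemma mono_rem (e c N V : ℕ) (he : 0 < e) (ψ : ℕ → ℕ) (hψ : Monotone ψ) (F : ℕ → ℝ) (M : ℝ)
    (hM : ∀ n, |F n| ≤ M) (hV : ∀ n < N, ψ n ≤ ψ 0 + V) :
    |∑ n ∈ range N, (if e ∣ c + n then F (ψ n) else 0) - (∑ n ∈ range N, F (ψ n)) / e| ≤
      M * (1 + 2 * V) := by
  have hM0 : 0 ≤ M := (abs_nonneg _).trans (hM 0)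
  obtain ⟨δ, hδ⟩ : ∃ δ : ℕ → ℝ, ∀ W, δ W =
    ∑ x ∈ range W, (if e ∣ c + x then (1 : ℝ) else 0) - W / e := ⟨_, fun _ => rfl⟩
  have d1 : ∀ W, |δ W| ≤ 1 := fun W => by
    have := count_dvd e 1 W c he (by simp)
    simpa only [one_mul, hδ] using this
  have key : ∀ N, |∑ n ∈ range (N + 1), (if e ∣ c + n then F (ψ n) else 0) -
      (∑ n ∈ range (N + 1), F (ψ n)) / e - F (ψ N) * δ (N + 1)| ≤ 2 * M * (ψ N - ψ 0) := by
    intro N
    induction N with
    | zero =>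
      rw [hδ]
      simp only [zero_add, range_one, sum_singleton, sub_self, mul_zero, abs_nonpos_iff]
      split_ifs <;> push_cast <;> ring
    | succ N ih =>
      have a1 : |(F (ψ N) - F (ψ (N + 1))) * δ (N + 1)| ≤ 2 * M * (ψ (N + 1) - ψ N) := by
        rcases (hψ (Nat.le_succ N)).eq_or_lt with h | h
        · simp [← h]
        · have b1 : (ψ N : ℝ) + 1 ≤ ψ (N + 1) := by exact_mod_cast h
          have b2 : |F (ψ N) - F (ψ (N + 1))| ≤ 2 * M :=
            (abs_sub _ _).trans (by linarith [hM (ψ N), hM (ψ (N + 1))])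
          rw [abs_mul]
          exact mul_le_mul b2 ((d1 _).trans (by linarith)) (abs_nonneg _) (by linarith)
      have a2 : δ (N + 1 + 1) = δ (N + 1) + (if e ∣ c + (N + 1) then (1 : ℝ) else 0) - 1 / e := by
        rw [hδ, hδ, sum_range_succ _ (N + 1)]; push_cast; ring
      rw [sum_range_succ _ (N + 1), sum_range_succ _ (N + 1), a2]
      refine le_trans (le_of_eq ?_) ((abs_add_le _ _).trans ((add_le_add ih a1).trans (le_of_eq
        (by ring))))
      congr 1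
      split_ifs <;> ring
  rcases N with _ | N
  · simp; positivity
  · have a1 := abs_le.mp (key N)
    have a2 : |F (ψ N) * δ (N + 1)| ≤ M * 1 := by
      rw [abs_mul]; exact mul_le_mul (hM _) (d1 _) (abs_nonneg _) hM0
    have a3 : (ψ N : ℝ) ≤ ψ 0 + V := by exact_mod_cast hV N (by omega)
    have a4 := mul_le_mul_of_nonneg_left a3 hM0
    rw [abs_le] at a2 ⊢
    constructor <;> nlinarith [a1.1, a1.2, a2.1, a2.2]

lemma ap_sum (e c h : ℕ) (he : 0 < e) : ∃ n0 N' : ℕ, N' ≤ h ∧ |(N' : ℝ) - h / e| ≤ 1 ∧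
    ∀ F : ℕ → ℝ, ∑ n ∈ range h, (if e ∣ c + n then F n else 0) = ∑ k ∈ range N', F (n0 + e * k) := by
  obtain ⟨n0, h0, h1⟩ : ∃ n0 < e, e ∣ c + n0 := by
    refine ⟨(e - c % e) % e, Nat.mod_lt _ he, (Nat.dvd_iff_mod_eq_zero ..).mpr ?_⟩
    rw [Nat.add_mod_mod, ← Nat.mod_add_mod, Nat.add_sub_cancel' (Nat.mod_lt _ he).le, Nat.mod_self]
  have key : ∀ h, ∃ N' ≤ h, h ≤ n0 + e * N' ∧ n0 + e * N' < h + e ∧ ∀ F : ℕ → ℝ,
      ∑ n ∈ range h, (if e ∣ c + n then F n else 0) = ∑ k ∈ range N', F (n0 + e * k) := by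
    intro h
    induction h with
    | zero => exact ⟨0, le_rfl, by simp, by simpa using h0, by simp⟩
    | succ h ih =>
      obtain ⟨N', a0, a1, a2, a3⟩ := ih
      have a4 : e ∣ c + (n0 + e * N') := by
        rw [← add_assoc]; exact dvd_add h1 (Dvd.intro _ rfl)
      by_cases hd : e ∣ c + h
      · have a5 : n0 + e * N' = h := by
          have := Nat.eq_zero_of_dvd_of_lt (Nat.dvd_sub a4 hd) (by omega)
          omega
        refine ⟨N' + 1, by omega, by rw [mul_add]; omega, by rw [mul_add]; omega, fun F => ?_⟩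
        rw [sum_range_succ, sum_range_succ, a3, if_pos hd, a5]
      · have a5 : n0 + e * N' ≠ h := fun hh => hd (hh ▸ a4)
        refine ⟨N', by omega, by omega, by omega, fun F => ?_⟩
        rw [sum_range_succ, a3, if_neg hd, add_zero]
  obtain ⟨N', a0, -, -, a3⟩ := key h
  refine ⟨n0, N', a0, ?_, a3⟩
  have := count_dvd e 1 h c he (by simp)
  simp only [one_mul] at this
  rw [a3 fun _ => 1] at this
  simpa using this

lemma card_diam (S : Finset ℕ) (x : ℝ) (hx : 0 ≤ x)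
    (h : ∀ n ∈ S, ∀ k : ℕ, n + k ∈ S → (k : ℝ) ≤ x) : (S.card : ℝ) ≤ x + 1 := by
  rcases S.eq_empty_or_nonempty with rfl | hS
  · simp; linarith
  · have h1 : S ⊆ Icc (S.min' hS) (S.min' hS + ⌊x⌋₊) := by
      intro n hn
      obtain ⟨k, hk⟩ := Nat.exists_eq_add_of_le (S.min'_le n hn)
      have := Nat.le_floor (h _ (S.min'_mem hS) k (hk ▸ hn))
      exact mem_Icc.mpr ⟨by omega, by omega⟩
    have h2 := card_le_card h1
    rw [Nat.card_Icc] at h2
    have h3 : (S.card : ℝ) ≤ (⌊x⌋₊ + 1 : ℕ) := by exact_mod_cast (by omega)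
    push_cast at h3
    linarith [Nat.floor_le hx]

lemma ES_of {e : ℕ} {w : ℕ → ℕ} {Λ : ℤ} (hΛ : Λ ≠ 0) {μ den U B hi hi' H N' R R1 : ℕ} (hden : 0 < den)
    (hU : 0 < U) (hB : 0 < B) (hμ : Nat.Coprime B μ) (hy : Deg (e + 1) (Λ * μ / den) fun n => w n)
    (hR : 2 ≤ R) (hR1 : R ≤ R1) (hN' : N' ≤ H) (hhi : hi ≤ hi') (h1 : R1 ^ (100 * CW e) ≤ H)
    (h3 : den * U * B ^ hi' * R1 ^ (100 * CW e) < H ^ (e + 1)) :
    ES w N' U B hi (R ^ (100 * CW e) * Λ.natAbs) ((H : ℝ) / R ^ 100) := by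
  have a1 : R ^ (100 * CW e) ≤ R1 ^ (100 * CW e) := Nat.pow_le_pow_left hR1 _
  refine expsum e w Λ hΛ μ den U B hi _ H N' hden hU hB hμ hy _ ?_ hN' ?_ ?_ ?_
  · exact_mod_cast hR.trans (Nat.le_self_pow (by norm_num) R)
  · rw [← pow_mul]; exact_mod_cast a1.trans h1
  · rw [← pow_mul]; push_cast; rw [Nat.cast_natAbs]; push_cast; exact le_rfl
  · rw [← pow_mul]
    exact_mod_cast lt_of_le_of_lt (Nat.mul_le_mul (Nat.mul_le_mul_left _
      (Nat.pow_le_pow_right hB hhi)) a1) h3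

lemma abs_grp {B : ℕ} (hB : 0 < B) (v : ℕ → ℝ) (hv1 : ∑ u ∈ range B, v u ^ 2 ≤ 1) (U a b x : ℕ) :
    |(∑ q ∈ Ico a b, v (dig U B q x)) ^ 2| ≤ (b : ℝ) ^ 2 := by
  rw [abs_pow]
  refine pow_le_pow_left₀ (abs_nonneg _) ((abs_sum_le_sum_abs _ _).trans
    ((sum_le_card_nsmul _ _ 1 fun q _ => ?_).trans ?_)) 2
  · exact (sq_le_one_iff_abs_le_one _).mp ((single_le_sum (f := fun u => v u ^ 2)
      (fun _ _ => sq_nonneg _) (mem_range.mpr (dig_lt U hB q x))).trans hv1)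
  · rw [Nat.card_Ico, nsmul_eq_mul, mul_one]; exact_mod_cast Nat.sub_le b a

section
variable {w : ℕ → ℕ} {b' D c h U B : ℕ} (hD : 1 ≤ D) (hc : D < c) (hB : 0 < B) (hU : 0 < U)
  (v : ℕ → ℝ) (hv0 : ∑ u ∈ range B, v u = 0) (hv1 : ∑ u ∈ range B, v u ^ 2 ≤ 1)
include hD hc hB hU hv0 hv1

lemma low {den q0 q1 Z R : ℕ} {H : ℝ} (hden : 0 < den)
    (hcop : ∀ e, Nat.Coprime e b' → Nat.Coprime e (den * (U * B ^ q1)))
    (hper : ∀ W n n', n % (den * W) = n' % (den * W) → w n % W = w n' % W)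
    (hE : ES w h U B q1 Z (H / R ^ 100)) (hR : 5 * B ≤ R) (hZ : 1 ≤ Z) (hh : (h : ℝ) ≤ H)
    (hlo : 2 * (Z * R ^ 90) ^ 2 < B ^ q0) :
    ∑ n ∈ range h, (if (c + n).Prime then (∑ q ∈ Ico q0 q1, v (dig U B q (w n))) ^ 2 else 0) ≤
      (H * (q1 / B) + (q1 : ℝ) ^ 2 * (45 * H / R)) / GG b' D +
        3 * ((q1 : ℝ) ^ 2 * (den * (U * B ^ q1) : ℕ)) * (D : ℝ) ^ 6 := by
  refine (sieve b' D hD (range h) c hc _ (fun _ => sq_nonneg _) _ fun e he hb =>
    per_rem e _ c h he (hcop e hb) (by positivity) _ _ (fun n => abs_grp hB v hv1 U q0 q1 (w n))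
      fun n n' hn => ?_).trans ?_
  · congr 1
    refine sum_congr rfl fun q hq => ?_
    rw [← dig_mod U B (mem_Ico.mp hq).2, hper _ n n' hn, dig_mod U B (mem_Ico.mp hq).2]
  · have a1 := (abs_le.mp (mid_est hE hB hU hR hZ hh le_rfl hlo v hv0 hv1)).2
    have a2 : (h : ℝ) * ((q1 - q0 : ℕ) * ((∑ u ∈ range B, v u ^ 2) / B)) ≤ H * (q1 / B) := by
      have b1 : ((q1 - q0 : ℕ) : ℝ) ≤ q1 := by exact_mod_cast Nat.sub_le _ _
      have b2 : 0 ≤ ∑ u ∈ range B, v u ^ 2 := sum_nonneg fun _ _ => sq_nonneg _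
      rw [← mul_div_assoc]
      refine mul_le_mul hh (div_le_div_of_nonneg_right ?_ (by positivity)) (by positivity)
        ((Nat.cast_nonneg _).trans hh)
      nlinarith [(Nat.cast_nonneg (q1 - q0) : (0 : ℝ) ≤ _)]
    have hG := one_le_GG (b := b') hD
    gcongr
    linarith

lemma mid {q0 q1 Z R H : ℕ} (hcop : ∀ e, Nat.Coprime e b' → Nat.Coprime e B)
    (hE : ∀ n0 μ N', N' ≤ H → Nat.Coprime B μ →
      ES (fun k => w (n0 + μ * k)) N' U B q1 Z ((H : ℝ) / R ^ 100))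
    (hR : 5 * B ≤ R) (hZ : 1 ≤ Z) (hh : h ≤ H) (hlo : 2 * (Z * R ^ 90) ^ 2 < B ^ q0) :
    ∑ n ∈ range h, (if (c + n).Prime then (∑ q ∈ Ico q0 q1, v (dig U B q (w n))) ^ 2 else 0) ≤
      (H * (q1 / B) + (q1 : ℝ) ^ 2 * (45 * H / R)) / GG b' D +
        (2 * ((q1 : ℝ) ^ 2 * (45 * H / R)) + q1) * (D : ℝ) ^ 6 := by
  have hh' : (h : ℝ) ≤ H := by exact_mod_cast hh
  have hB1 : (1 : ℝ) ≤ B := by exact_mod_cast hB
  have a0 := hE 0 1 h hh (by simp)
  simp only [zero_add, one_mul] at a0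
  have a1 := mid_est a0 hB hU hR hZ hh' le_rfl hlo v hv0 hv1
  have b2 : 0 ≤ ∑ u ∈ range B, v u ^ 2 := sum_nonneg fun _ _ => sq_nonneg _
  have b3 : ((q1 - q0 : ℕ) : ℝ) * ((∑ u ∈ range B, v u ^ 2) / B) ≤ q1 / B := by
    have b1 : ((q1 - q0 : ℕ) : ℝ) ≤ q1 := by exact_mod_cast Nat.sub_le _ _
    rw [← mul_div_assoc]
    refine div_le_div_of_nonneg_right ?_ (by positivity)
    nlinarith [(Nat.cast_nonneg (q1 - q0) : (0 : ℝ) ≤ _)]
  have b4 : 0 ≤ ((q1 - q0 : ℕ) : ℝ) * ((∑ u ∈ range B, v u ^ 2) / B) := by positivity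
  have b5 : (q1 : ℝ) / B ≤ q1 := div_le_self (by positivity) hB1
  refine (sieve b' D hD (range h) c hc _ (fun _ => sq_nonneg _)
    (2 * ((q1 : ℝ) ^ 2 * (45 * H / R)) + q1) fun e he hb => ?_).trans ?_
  · obtain ⟨n0, N', c1, c2, c3⟩ := ap_sum e c h he
    have a2 := mid_est (hE n0 e N' (c1.trans hh) (hcop e hb).symm) hB hU hR hZ
      (by exact_mod_cast c1.trans hh) le_rfl hlo v hv0 hv1
    rw [c3 fun n => (∑ q ∈ Ico q0 q1, v (dig U B q (w n))) ^ 2]
    generalize ((q1 - q0 : ℕ) : ℝ) * ((∑ u ∈ range B, v u ^ 2) / B) = σ at *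
    have he1 : (1 : ℝ) ≤ e := by exact_mod_cast he
    have a3 : |(N' - h / e) * σ| ≤ 1 * q1 := by
      rw [abs_mul, abs_of_nonneg b4]; exact mul_le_mul c2 (b3.trans b5) b4 zero_le_one
    have a4 := (div_le_self (abs_nonneg _) he1).trans a1
    rw [← abs_of_pos (by linarith : (0 : ℝ) < e), ← abs_div, sub_div] at a4
    have a5 : (N' - h / e) * σ = N' * σ - h * σ / e := by ring
    rw [a5] at a3
    rw [abs_le] at a2 a3 a4 ⊢
    constructor <;> linarith [a2.1, a2.2, a3.1, a3.2, a4.1, a4.2]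
  · have a2 := mul_le_mul hh' b3 b4 (by positivity)
    have hG := one_le_GG (b := b') hD
    have := (abs_le.mp a1).2
    gcongr
    linarith

lemma high {q1 r a : ℕ} {γ : ℝ} (hγ : 0 < γ) (hinc : ∀ n k : ℕ, w n + k * γ ≤ w (n + k))
    (ha : ∀ n < h, w n / (U * B ^ (q1 + r)) = a) :
    ∑ n ∈ range h, (if (c + n).Prime then (∑ q ∈ Ico q1 (q1 + r), v (dig U B q (w n))) ^ 2 else 0) ≤
      (((U * B ^ q1 : ℕ) / γ + 1) * (B ^ r * (r / B))) / GG b' D +
        (r : ℝ) ^ 2 * (1 + 2 * (B ^ r : ℕ)) * (D : ℝ) ^ 6 := by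
  have hB' : (0 : ℝ) < B := by exact_mod_cast hB
  have hW : 0 < U * B ^ q1 := by positivity
  have e1 : ∀ x, ∑ q ∈ Ico q1 (q1 + r), v (dig U B q x) = Phi 1 B v r (x / (U * B ^ q1)) := by
    intro x
    rw [sum_Ico_eq_sum_range, Nat.add_sub_cancel_left]
    simp only [dig_div, Phi]
  have hm : Monotone w := monotone_nat_of_le_succ fun n => by
    have := hinc n 1
    exact_mod_cast (by push_cast at this; linarith : (w n : ℝ) ≤ w (n + 1))
  have ha' : ∀ n < h, w n / (U * B ^ q1) / B ^ r = a := fun n hn => by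
    rw [Nat.div_div_eq_div_mul, mul_assoc, ← pow_add, ha n hn]
  simp only [e1]
  refine (sieve b' D hD (range h) c hc _ (fun _ => sq_nonneg _) _ fun e he _ =>
    mono_rem e c h (B ^ r) he (fun n => w n / (U * B ^ q1)) (fun _ _ hh => Nat.div_le_div_right (hm hh))
      (fun x => Phi 1 B v r x ^ 2) ((r : ℝ) ^ 2) (fun x => ?_) fun n hn => ?_).trans ?_
  · have := abs_grp hB v hv1 1 0 r x
    rwa [← range_eq_Ico] at this
  · have a1 := Nat.div_add_mod (w n / (U * B ^ q1)) (B ^ r)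
    have a2 := Nat.div_add_mod (w 0 / (U * B ^ q1)) (B ^ r)
    have a3 := Nat.mod_lt (w n / (U * B ^ q1)) (pow_pos hB r)
    rw [ha' n hn] at a1
    rw [ha' 0 (by omega)] at a2
    rw [← a1, ← a2, add_assoc]
    exact Nat.add_le_add_left (a3.le.trans (Nat.le_add_left _ _)) _
  · have hG := one_le_GG (b := b') hD
    gcongr
    rw [← sum_fiberwise_of_maps_to (t := range (1 * B ^ r)) (g := fun n => w n / (U * B ^ q1) % (1 * B ^ r))
      fun n _ => mem_range.mpr (Nat.mod_lt _ (by positivity))]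
    have a1 := Phi_sq 1 B v hv0 r
    have a2 : ∑ n ∈ range (1 * B ^ r), Phi 1 B v r n ^ 2 ≤ B ^ r * (r / B) := by
      rw [← mul_div_assoc, le_div_iff₀ hB', mul_comm, a1]
      push_cast
      rw [one_mul]
      exact mul_le_of_le_one_right (by positivity) hv1
    refine le_trans ?_ (mul_le_mul_of_nonneg_left a2 (by positivity))
    rw [mul_sum]
    refine sum_le_sum fun x _ => ?_
    rw [sum_congr rfl (g := fun _ => Phi 1 B v r x ^ 2) fun n hn => by
      rw [← (mem_filter.mp hn).2, Phi_mod], sum_const, nsmul_eq_mul]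
    refine mul_le_mul_of_nonneg_right (card_diam _ _ (by positivity) fun n hn k hk => ?_) (sq_nonneg _)
    obtain ⟨b1, b2⟩ := mem_filter.mp hn
    obtain ⟨b3, b4⟩ := mem_filter.mp hk
    rw [one_mul] at b2 b4
    have b5 := Nat.div_add_mod (w n / (U * B ^ q1)) (B ^ r)
    have b6 := Nat.div_add_mod (w (n + k) / (U * B ^ q1)) (B ^ r)
    rw [ha' _ (mem_range.mp b1), b2] at b5
    rw [ha' _ (mem_range.mp b3), b4, b5] at b6
    have b7 := Nat.div_add_mod (w n) (U * B ^ q1)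
    have b8 := Nat.div_add_mod (w (n + k)) (U * B ^ q1)
    have b9 := Nat.mod_lt (w (n + k)) hW
    rw [← b6] at b8
    have b10 : (w (n + k) : ℝ) ≤ w n + (U * B ^ q1 : ℕ) := by exact_mod_cast (by omega)
    rw [le_div_iff₀ hγ]
    linarith [hinc n k]

end

end Pool.Agent.H016e
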