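import Mathlib
import Pool.Agent.H.MP_016e95_nt.G

set_option autoImplicit false

namespace Pool.Agent.H016e

open Finset Ha237

lemma fin_grp {S R G ρ z t B H : ℝ} (hS : S ≤ 2 * (H * (t / B))) (hG : z ≤ ρ * G) (hG0 : 0 < G)
    (hz : 0 < z) (hzt : z ≤ t) (hB : 0 < B) (hH : 0 ≤ H) (hR : R * B ≤ H) :
    S / G + R ≤ (2 * ρ + 1) * H / z * (t / B) := by
  have ht : 0 ≤ t := by linarith
  have a1 : S / G ≤ 2 * (H * (t / B)) * (ρ / z) := by
    rw [div_le_iff₀ hG0]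
    refine hS.trans (le_mul_of_one_le_right (by positivity) ?_ |>.trans (mul_assoc _ _ _).ge)
    rw [div_mul_eq_mul_div, le_div_iff₀ hz]; linarith
  have a2 : R ≤ H / B * (t / z) := ((le_div_iff₀ hB).mpr hR).trans
    (le_mul_of_one_le_right (by positivity) ((one_le_div hz).mpr hzt))
  have a3 : (2 * ρ + 1) * H / z * (t / B) = 2 * (H * (t / B)) * (ρ / z) + H / B * (t / z) := by ring
  linarith

lemma sq4 (x1 x2 x3 x4 : ℝ) : (x1 + x2 + x3 + x4) ^ 2 ≤ 4 * (x1 ^ 2 + x2 ^ 2 + (x3 ^ 2 + x4 ^ 2)) := by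
  nlinarith [sq_nonneg (x1 - x2), sq_nonneg (x1 - x3), sq_nonneg (x1 - x4), sq_nonneg (x2 - x3),
    sq_nonneg (x2 - x4), sq_nonneg (x3 - x4)]

lemma gram {w : ℕ → ℕ} {b' c h U B e den z qT q0 H a a1 a2 t β : ℕ} {Λ : ℤ} {γ ρ : ℝ}
    (ha1 : a1 = 1400 * CW e + 1261) (ha2 : a2 = 700 * CW e + 2 * (e + 1) + 1)
    (ht : t = qT + a2 * z) (hβ : β = B ^ z) (hB : 0 < B) (hU : 0 < U) (hden : 0 < den) (hΛ : Λ ≠ 0)
    (hz : 1 ≤ z) (hqT : a1 * z ≤ qT) (hc : β < c)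
    (hcop : ∀ e, Nat.Coprime e b' → Nat.Coprime e B ∧ Nat.Coprime e U ∧ Nat.Coprime e den)
    (hdeg : ∀ n0 μ : ℕ, Deg (e + 1) (Λ * (μ ^ (e + 1) : ℕ) / den) fun k => w (n0 + μ * k))
    (hper : ∀ W n n', n % (den * W) = n' % (den * W) → w n % W = w n' % W)
    (hγ : 0 < γ) (hinc : ∀ n k : ℕ, w n + k * γ ≤ w (n + k))
    (ha : ∀ n < h, w n / (U * B ^ t) = a) (hh : h ≤ H)
    (s1 : 180 * t ^ 2 * B ≤ β) (s2 : den < β) (s3 : U ≤ β) (s4 : 2 * Λ.natAbs ^ 2 < β)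
    (s5 : β ^ (a1 + a2 + 12) ≤ H) (s6 : U * B ^ t ≤ H ^ (e + 1) * β ^ (2 * (e + 1)))
    (s7 : (U * B ^ t : ℕ) / γ ≤ H) (s8 : q0 ^ 2 * B ≤ t) (s9 : q0 ≤ z)
    (s10 : 2 * ((45 * t * B) ^ (100 * CW e) * Λ.natAbs * (45 * t * B) ^ 90) ^ 2 < B ^ q0)
    (hG : (z : ℝ) ≤ ρ * GG b' β) :
    (∑ n ∈ range h, (if (c + n).Prime then (1 : ℝ) else 0) ≤ (2 * ρ + 1) * H / z) ∧
    ∀ v : ℕ → ℝ, ∑ u ∈ range B, v u = 0 → ∑ u ∈ range B, v u ^ 2 ≤ 1 →
      ∑ n ∈ range h, (if (c + n).Prime then Phi U B v t (w n) ^ 2 else 0) ≤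
        (2 * ρ + 1) * H / z * (16 * (t / B)) := by
  have hβ0 : 1 ≤ β := by omega
  have hG0 : 0 < GG b' β := lt_of_lt_of_le one_pos (one_le_GG hβ0)
  have hzq : z ≤ a1 * z := Nat.le_mul_of_pos_left _ (by omega)
  have hzt : z ≤ t := by omega
  have htt : t ≤ t ^ 2 := Nat.le_self_pow (by norm_num) t
  have htB : t ^ 2 ≤ t ^ 2 * B := Nat.le_mul_of_pos_right _ hB
  have hBt : B ≤ t ^ 2 * B := Nat.le_mul_of_pos_left _ (pow_pos (by omega) 2)
  have htB' : t * B ≤ t ^ 2 * B := Nat.mul_le_mul_right _ htt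
  rw [mul_assoc] at s1
  have hz' : (0 : ℝ) < z := by exact_mod_cast hz
  have hzt' : (z : ℝ) ≤ t := by exact_mod_cast hzt
  have hB' : (0 : ℝ) < B := by exact_mod_cast hB
  have hh' : (h : ℝ) ≤ H := by exact_mod_cast hh
  have hH0 : (0 : ℝ) ≤ H := Nat.cast_nonneg _
  have hp : ∀ k, k ≤ a1 + a2 + 12 → β ^ k ≤ H := fun k hk => (Nat.pow_le_pow_right hβ0 hk).trans s5
  have hpz : ∀ k, B ^ (k * z) = β ^ k := fun k => by rw [hβ, mul_comm, pow_mul]
  have hΛ1 : 1 ≤ Λ.natAbs := Int.natAbs_pos.mpr hΛ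
  have P : ∑ n ∈ range h, (if (c + n).Prime then (1 : ℝ) else 0) ≤ (2 * ρ + 1) * H / z := by
    have a1 := sieve b' β hβ0 (range h) c hc (fun _ => 1) (fun _ => zero_le_one) 1 fun e he _ => by
      simpa using count_dvd e 1 h c he (by simp)
    have a2 := fin_grp (S := h) (R := (β : ℝ) ^ 6) (t := z) (B := z) (H := H)
      (by rw [div_self hz'.ne']; linarith) hG hG0 hz' le_rfl hz' hH0 (by
        exact_mod_cast le_trans (Nat.mul_le_mul_left _ (by omega : z ≤ β)) (hp 7 (by omega)))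
    rw [div_self hz'.ne', mul_one] at a2
    simp only [sum_const, card_range, nsmul_eq_mul, mul_one, one_mul] at a1
    linarith
  refine ⟨P, fun v hv0 hv1 => ?_⟩
  have h1 : (β ^ 7) ^ (100 * CW e) ≤ H := by rw [← pow_mul]; exact hp _ (by omega)
  have h3 : den * U * B ^ qT * (β ^ 7) ^ (100 * CW e) < H ^ (e + 1) := by
    refine lt_of_mul_lt_mul_right (lt_of_lt_of_le ?_ s6) (Nat.zero_le _)
    rw [ht, pow_add, hpz, ha2, ← pow_mul]
    calc _ = den * (U * B ^ qT * β ^ (700 * CW e + 2 * (e + 1))) := by ring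
      _ < β * (U * B ^ qT * β ^ (700 * CW e + 2 * (e + 1))) :=
        Nat.mul_lt_mul_of_pos_right s2 (by positivity)
      _ = _ := by ring
  have hβ7 : β ≤ β ^ 7 := Nat.le_self_pow (by norm_num) β
  have ht0 : 0 < t := by omega
  have hR0 : 5 * B ≤ 45 * t * B := Nat.mul_le_mul_right _ (by omega)
  have L := low (w := w) (b' := b') (h := h) hβ0 hc hB hU v hv0 hv1 (q0 := q0) (q1 := a1 * z) hden
    (fun e he => (hcop e he).2.2.mul_right ((hcop e he).2.1.mul_right ((hcop e he).1.pow_right _)))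
    hper (ES_of (μ := 1) (R := 45 * t * B) hΛ hden hU hB (by simp) (by simpa using hdeg 0 1)
      (by omega) (by rw [mul_assoc]; omega) hh hqT h1 h3) hR0
    (Nat.mul_pos (by positivity) hΛ1) hh' s10
  have M := mid (w := w) (b' := b') (h := h) hβ0 hc hB hU v hv0 hv1 (q0 := a1 * z) (q1 := qT)
    (R := β ^ 7) (fun e he => (hcop e he).1)
    (fun n0 μ N' k1 k2 => ES_of hΛ hden hU hB (k2.pow_right _) (hdeg n0 μ) (by omega) le_rfl k1 le_rfl
      h1 h3) (by omega) (Nat.mul_pos (by positivity) hΛ1) hh (by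
      rw [hpz, ha1]
      calc _ = 2 * Λ.natAbs ^ 2 * β ^ (1400 * CW e + 1260) := by ring
        _ < β * β ^ (1400 * CW e + 1260) := Nat.mul_lt_mul_of_pos_right s4 (by positivity)
        _ = _ := by ring)
  have Hi := high (w := w) (b' := b') (h := h) hβ0 hc hB hU v hv0 hv1 hγ hinc (ht ▸ ha)
  rw [← ht] at Hi
  have ht' : (0 : ℝ) < t := by exact_mod_cast ht0
  have hβ' : (1 : ℝ) ≤ β := by exact_mod_cast hβ0
  have k1 : ((a1 * z : ℕ) : ℝ) ≤ t := by exact_mod_cast (by omega)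
  have k2 : (qT : ℝ) ≤ t := by exact_mod_cast (by omega)
  have k3 : ((a2 * z : ℕ) : ℝ) ≤ t := by exact_mod_cast (by omega)
  have k4 : 180 * ((t : ℝ) ^ 2 * B) ≤ β := by exact_mod_cast s1
  replace L := L.trans (fin_grp (H := H) (by
      have b1 : ((a1 * z : ℕ) : ℝ) ^ 2 * (45 * H / (45 * t * B : ℕ)) ≤ t ^ 2 * (45 * H / (45 * t * B : ℕ)) := by
        gcongr
      have b2 : (t : ℝ) ^ 2 * (45 * H / (45 * t * B : ℕ)) = H * (t / B) := by push_cast; field_simp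
      have b3 : (H : ℝ) * ((a1 * z : ℕ) / B) ≤ H * (t / B) := by gcongr
      linarith) hG hG0 hz' hzt' hB' hH0 (by
      have b1 : 3 * ((a1 * z) ^ 2 * (den * (U * B ^ (a1 * z)))) * β ^ 6 * B ≤ β ^ (a1 + 9) := by
        rw [hpz]
        calc _ = 3 * ((a1 * z) ^ 2 * B) * (den * (U * β ^ (a1 + 6))) := by ring
          _ ≤ β * (β * (β * β ^ (a1 + 6))) := by
            refine Nat.mul_le_mul (le_trans ?_ s1) (Nat.mul_le_mul s2.le (Nat.mul_le_mul_right _ s3))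
            exact Nat.mul_le_mul (by norm_num) (Nat.mul_le_mul_right _
              (Nat.pow_le_pow_left (by omega) 2))
          _ = _ := by ring
      exact_mod_cast b1.trans (hp _ (by omega))))
  have m1 : (qT : ℝ) ^ 2 * (45 * H / (β ^ 7 : ℕ)) * β ^ 6 * B ≤ H / 4 := by
    have b1 : (qT : ℝ) ^ 2 * (45 * H / (β ^ 7 : ℕ)) * β ^ 6 * B = H / 4 * (180 * (qT ^ 2 * B) / β) := by
      push_cast; field_simp; ring
    rw [b1]
    refine mul_le_of_le_one_right (by positivity) (div_le_one_of_le₀ (le_trans ?_ k4) (by linarith))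
    gcongr
  replace M := M.trans (fin_grp (H := H) (by
      have b1 : (qT : ℝ) ^ 2 * (45 * H / (β ^ 7 : ℕ)) * B ≤ H / 4 := le_trans
        (mul_le_mul_of_nonneg_right (le_mul_of_one_le_right (by positivity) (one_le_pow₀ hβ')) hB'.le) m1
      have b2 : (qT : ℝ) ^ 2 * (45 * H / (β ^ 7 : ℕ)) ≤ H * (t / B) := by
        rw [← mul_div_assoc (H : ℝ), le_div_iff₀ hB']
        have : (1 : ℝ) ≤ t := by exact_mod_cast ht0
        nlinarith
      have b3 : (H : ℝ) * (qT / B) ≤ H * (t / B) := by gcongr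
      linarith) hG hG0 hz' hzt' hB' hH0 (by
      have b1 : 2 * (qT * B) * β ^ 6 ≤ H := le_trans (by
        rw [pow_succ' β 6]
        have : qT * B ≤ t * B := Nat.mul_le_mul_right _ (by omega)
        exact Nat.mul_le_mul_right _ (by omega)) (hp 7 (by omega))
      have b2 : 2 * ((qT : ℝ) * B) * β ^ 6 ≤ H := by exact_mod_cast b1
      linarith))
  replace Hi := Hi.trans (fin_grp (H := H) (by
      have b1 : (B : ℝ) ^ (a2 * z) ≤ H := by exact_mod_cast (hpz a2).le.trans (hp a2 (by omega))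
      have b2 : (U * B ^ qT : ℕ) / γ * (B : ℝ) ^ (a2 * z) = (U * B ^ t : ℕ) / γ := by
        rw [ht]; push_cast; ring
      rw [← mul_assoc, ← mul_assoc, add_mul, b2]
      gcongr
      linarith) hG hG0 hz' hzt' hB' hH0 (by
      have b1 : (a2 * z) ^ 2 * (1 + 2 * B ^ (a2 * z)) * β ^ 6 * B ≤ β ^ (a2 + 7) := by
        rw [hpz]
        have : 1 ≤ β ^ a2 := Nat.one_le_pow _ _ hβ0
        calc _ ≤ t ^ 2 * (3 * β ^ a2) * β ^ 6 * B := by gcongr <;> omega
          _ = 3 * (t ^ 2 * B) * β ^ (a2 + 6) := by ring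
          _ ≤ β * β ^ (a2 + 6) := Nat.mul_le_mul_right _ (by omega)
          _ = _ := by ring
      exact_mod_cast b1.trans (hp _ (by omega))))
  have Z : ∑ n ∈ range h, (if (c + n).Prime then (∑ q ∈ Ico 0 q0, v (dig U B q (w n))) ^ 2 else 0) ≤
      (2 * ρ + 1) * H / z * (t / B) := by
    refine le_trans ?_ (mul_le_mul_of_nonneg_right P (by positivity))
    rw [sum_mul]
    refine sum_le_sum fun n _ => ?_
    split_ifs
    · rw [one_mul, le_div_iff₀ hB']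
      exact (mul_le_mul_of_nonneg_right ((le_abs_self _).trans (abs_grp hB v hv1 U 0 q0 _))
        hB'.le).trans (by exact_mod_cast s8)
    · simp
  have F := add_le_add (add_le_add Z L) (add_le_add M Hi)
  simp only [← sum_add_distrib] at F
  refine le_trans ?_ ((mul_le_mul_of_nonneg_left F (by norm_num : (0 : ℝ) ≤ 4)).trans
    (le_of_eq (by ring)))
  rw [mul_sum]
  refine sum_le_sum fun n _ => ?_
  split_ifs
  · rw [Phi, range_eq_Ico, ← sum_Ico_consecutive _ (Nat.zero_le qT) (by omega : qT ≤ t),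
      ← sum_Ico_consecutive _ (Nat.zero_le (a1 * z)) hqT,
      ← sum_Ico_consecutive _ (Nat.zero_le q0) (s9.trans hzq)]
    exact sq4 _ _ _ _
  · simp

end Pool.Agent.H016e
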