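import Mathlib
import Pool.Agent.H.MP_016e95_nt.H
import Pool.Agent.H.MP_a23773_nt.C

set_option autoImplicit false

namespace Pool.Agent.H016e

open Finset Ha237

/-- the `j`-th block of length `m` -/
def blk (b : ℕ) (d : ℕ → ℕ) (m j : ℕ) : ℕ := ∑ i ∈ range m, d (m * j + i) * b ^ (m - 1 - i)

noncomputable def dev (b : ℕ) (d : ℕ → ℕ) (m k n : ℕ) : ℝ :=
  ∑ j ∈ range n, ind (b ^ m) k (blk b d m j)

/-- the number of primes below `n` -/
noncomputable def pc (n : ℕ) : ℝ := ∑ x ∈ range n, (if x.Prime then (1 : ℝ) else 0)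

lemma len_eq {b l y : ℕ} (hb : 2 ≤ b) (h1 : b ^ l ≤ y) (h2 : y < b ^ (l + 1)) :
    (Nat.digits b y).length = l + 1 := by
  have a1 := (Nat.digits_length_le_iff (b := b) (k := l + 1) (by omega) y).mpr h2
  have a2 := (Nat.digits_length_le_iff (b := b) (k := l) (by omega) y).not.mpr (by omega)
  omega

section
variable {b : ℕ} (hb : 2 ≤ b) (g d T : ℕ → ℕ)
  (hT : ∀ y, T (y + 1) = T y + if y.Prime then (Nat.digits b (g y)).length else 0)
  (hd : ∀ y j, y.Prime → j < (Nat.digits b (g y)).length →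
    d (T y + j) = g y / b ^ ((Nat.digits b (g y)).length - 1 - j) % b)
include hb hT hd

lemma seg (m s u L l c j0 : ℕ) (hsu : s + u = m) (hl : l + 1 = m * (L + 1))
    (hj : T c + s = m * j0) : ∀ h, (∀ n < h, b ^ l ≤ g (c + n) ∧ g (c + n) < b ^ (l + 1)) →
      ∃ j1, T (c + h) + s = m * j1 ∧ ∀ k,
      |dev b d m k j1 - dev b d m k j0 - ∑ n ∈ range h,
        (if (c + n).Prime then Phi (b ^ u) (b ^ m) (ind (b ^ m) k) L (g (c + n)) else 0)| ≤
        ∑ n ∈ range h, (if (c + n).Prime then (1 : ℝ) else 0) := by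
  intro h
  induction h with
  | zero => exact fun _ => ⟨j0, hj, by simp⟩
  | succ h ih =>
    intro hh
    obtain ⟨j1, a1, a2⟩ := ih fun n hn => hh n (by omega)
    by_cases hp : (c + h).Prime
    · have hlen := len_eq hb (hh h (by omega)).1 (hh h (by omega)).2
      refine ⟨j1 + (L + 1), ?_, fun k => ?_⟩
      · rw [← add_assoc, hT, if_pos hp, hlen, hl, add_right_comm, a1]; ring
      · have b1 : ∀ q ∈ range L,
            blk b d m (j1 + q) = dig (b ^ u) (b ^ m) (L - 1 - q) (g (c + h)) := by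
          intro q hq
          obtain ⟨q', rfl⟩ : ∃ q', L = q + q' + 1 := ⟨L - q - 1, by have := mem_range.mp hq; omega⟩
          unfold blk dig
          rw [← sum_digits_mod b _ m]
          refine sum_congr rfl fun x hx => ?_
          obtain ⟨x', hx'⟩ : ∃ x', m = x + x' + 1 := ⟨m - x - 1, by have := mem_range.mp hx; omega⟩
          have e0 : l = (s + m * q + x) + (u + m * q' + x') := by nlinarith
          have e1 : m * (j1 + q) + x = T (c + h) + (s + m * q + x) := by
            rw [mul_add, ← a1]; ring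
          rw [e1, hd _ _ hp (by rw [hlen]; omega), hlen, Nat.div_div_eq_div_mul, ← pow_mul,
            ← pow_add, ← pow_add, show q + q' + 1 - 1 - q = q' by omega,
            show m - 1 - x = x' by omega, show l + 1 - 1 - (s + m * q + x) = u + m * q' + x' by omega]
        have b2 : dev b d m k (j1 + (L + 1)) = dev b d m k j1 +
            Phi (b ^ u) (b ^ m) (ind (b ^ m) k) L (g (c + h)) +
              ind (b ^ m) k (blk b d m (j1 + L)) := by
          unfold dev Phi
          rw [sum_range_add, sum_range_succ, sum_congr (s₁ := range L) rfl fun q hq => by rw [b1 q hq],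
            sum_range_reflect (fun q => ind (b ^ m) k (dig (b ^ u) (b ^ m) q (g (c + h)))) L,
            add_assoc]
        have b3 := abs_le.mp (abs_ind_le (B := b ^ m) k (blk b d m (j1 + L)) (by positivity))
        have b4 := abs_le.mp (a2 k)
        rw [sum_range_succ, sum_range_succ, if_pos hp, if_pos hp, b2, abs_le]
        constructor <;> linarith
    · refine ⟨j1, by rw [← add_assoc, hT, if_neg hp]; exact a1, fun k => ?_⟩
      rw [sum_range_succ, sum_range_succ, if_neg hp, if_neg hp, add_zero, add_zero]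
      exact a2 k

omit hd in
lemma T_le (h0 : T 0 = 0) (l Y : ℕ) (hY : ∀ n, 1 ≤ n → n < Y → g n < b ^ l) :
    ∀ y ≤ Y, T y ≤ l * y := by
  intro y
  induction y with
  | zero => simp [h0]
  | succ y ih =>
    intro hy
    have a1 := ih (by omega)
    rw [hT, mul_add]
    split_ifs with hp
    · have a2 := (Nat.digits_length_le_iff (b := b) (k := l) (by omega) (g y)).mpr
        (hY y hp.one_le (by omega))
      omega
    · omega

/-- few primes have values with `l + 1` digits if all block counts are nearly exact -/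
lemma cls (m s u t z l X : ℕ) (nn : ℕ → ℕ) (hm : 0 < m) (hsu : s + 1 + u = m)
    (hl : l + 1 = m * (t + z + 1)) (hX : 1 ≤ X) (hg : ∀ n n', X ≤ n → n ≤ n' → g n ≤ g n')
    (N1 : ∀ x n, 1 ≤ n → n < nn x → g n < x) (N2 : ∀ x, x ≤ g (nn x)) (N3 : X ≤ nn (b ^ l))
    (N4 : Monotone nn) (j0 : ℕ) (hj : T (nn (b ^ l)) + (s + 1) = m * j0)
    (hw : 64 * b ^ m ≤ z) (E : ℝ) (hE0 : 0 ≤ E)
    (hE : ∀ y ≤ nn (b ^ (l + 1)), ∀ j, T y + (s + 1) = m * j → ∀ k < b ^ m, |dev b d m k j| ≤ E)
    (ν : ℝ) (hν0 : 0 ≤ ν)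
    (hν : ∀ c h a, X ≤ c → (∀ n < h, g (c + n) / (b ^ u * (b ^ m) ^ t) = a) →
      (∑ n ∈ range h, (if (c + n).Prime then (1 : ℝ) else 0) ≤ ν) ∧
      ∀ v : ℕ → ℝ, ∑ k ∈ range (b ^ m), v k = 0 → ∑ k ∈ range (b ^ m), v k ^ 2 ≤ 1 →
        ∑ n ∈ range h, (if (c + n).Prime then Phi (b ^ u) (b ^ m) v t (g (c + n)) ^ 2 else 0) ≤
          ν * (3 * z / (b ^ m : ℕ))) :
    pc (nn (b ^ (l + 1))) - pc (nn (b ^ l)) ≤
      (2 * E + 80 * ν / (b ^ m : ℕ)) * ((b ^ m) ^ z * b ^ (s + 1) : ℕ) := by
  have hB2 : 2 ≤ b ^ m := hb.trans (Nat.le_self_pow hm.ne' b)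
  have e0 : b ^ l = b ^ u * (b ^ m) ^ t * ((b ^ m) ^ z * b ^ s) := by
    rw [← pow_mul, ← pow_mul, ← pow_add, ← pow_add, ← pow_add]
    congr 1
    nlinarith
  have e1 : b ^ (l + 1) = b ^ u * (b ^ m) ^ t * ((b ^ m) ^ z * b ^ (s + 1)) := by
    rw [pow_succ, e0]; ring
  have sg := fun c j0 => seg hb g d T hT hd m (s + 1) u (t + z) l c j0 hsu hl
  have hU0 : 0 < b ^ u := by positivity
  generalize b ^ m = B at *
  generalize b ^ u = U at *
  set H := U * B ^ t with hH
  have hH0 : 0 < H := by positivity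
  set A0 := B ^ z * b ^ s with hA0
  set A := B ^ z * b ^ (s + 1) with hA
  have hAA : A0 ≤ A := Nat.mul_le_mul_left _ (Nat.pow_le_pow_right (by omega) (by omega))
  have hB' : (0 : ℝ) < B := by exact_mod_cast (by omega : 0 < B)
  have hw' : (64 : ℝ) * B ≤ z := by exact_mod_cast hw
  have rng : ∀ x x', b ^ l ≤ x → ∀ n < nn x' - nn x, x ≤ g (nn x + n) ∧ g (nn x + n) < x' := by
    intro x x' h1 n hn
    have := N3.trans (N4 h1)
    exact ⟨(N2 x).trans (hg _ _ this (by omega)), N1 _ _ (by omega) (by omega)⟩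
  have key : ∀ a ∈ Ico A0 A, pc (nn (H * (a + 1))) - pc (nn (H * a)) ≤
      2 * E + 48 * ν / B + 16 * ν / z ^ 2 * ZZ B z a ^ 2 := by
    intro a ha
    obtain ⟨ha1, ha2⟩ := mem_Ico.mp ha
    have c1 : b ^ l ≤ H * a := e0 ▸ Nat.mul_le_mul_left H ha1
    have c2 : H * (a + 1) ≤ b ^ (l + 1) := e1 ▸ Nat.mul_le_mul_left H ha2
    have c3 : H * a ≤ H * (a + 1) := Nat.mul_le_mul_left H (by omega)
    obtain ⟨j1, b1, -⟩ := sg _ j0 hj (nn (H * a) - nn (b ^ l)) fun n hn =>
      ⟨(rng _ _ le_rfl n hn).1, by have := (rng _ _ le_rfl n hn).2; omega⟩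
    rw [Nat.add_sub_cancel' (N4 c1)] at b1
    have c4 := rng _ (H * (a + 1)) c1
    obtain ⟨h, hh⟩ := Nat.exists_eq_add_of_le (N4 c3)
    have c5 := N4 (c3.trans c2)
    have c6 := N4 c2
    have c7 := N3.trans (N4 c1)
    rw [hh] at c6 ⊢
    rw [hh, Nat.add_sub_cancel_left] at c4
    generalize nn (H * a) = c at *
    obtain ⟨j2, b2, b3⟩ := sg c j1 b1 h fun n hn => by have := c4 n hn; omega
    have c8 : ∀ n < h, g (c + n) / H = a := fun n hn => by
      have := c4 n hn
      exact Nat.div_eq_of_lt_le (by rw [mul_comm]; omega) (by rw [mul_comm]; omega)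
    obtain ⟨s1, s2⟩ := hν c h a c7 c8
    rw [pc, pc, sum_range_add, add_sub_cancel_left]
    set p := ∑ n ∈ range h, (if (c + n).Prime then (1 : ℝ) else 0) with hp
    have hp0 : 0 ≤ p := sum_nonneg fun _ _ => by split_ifs <;> norm_num
    set v : ℕ → ℝ := fun k => ∑ n ∈ range h,
      (if (c + n).Prime then Phi U B (ind B k) t (g (c + n)) else 0) with hv
    refine per_a hB2 p E ν z v (fun k => Phi 1 B (ind B k) z a) hp0 hE0 hw' s1 ?_ ?_
    · intro k hk
      have f1 : ∑ n ∈ range h, (if (c + n).Prime then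
          Phi U B (ind B k) (t + z) (g (c + n)) else 0) = v k + p * Phi 1 B (ind B k) z a := by
        rw [hv, hp, sum_mul, ← sum_add_distrib]
        refine sum_congr rfl fun n hn => ?_
        rw [Phi_add, ← hH, c8 n (mem_range.mp hn)]
        split_ifs <;> simp
      have f2 := abs_le.mp (b3 k)
      rw [f1] at f2
      have f3 := abs_le.mp (hE _ c5 j1 b1 k hk)
      have f4 := abs_le.mp (hE _ c6 j2 b2 k hk)
      rw [abs_le]
      constructor <;> linarith
    · have f1 : ∑ k ∈ range B, v k = 0 := by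
        simp only [hv]
        rw [sum_comm]
        refine sum_eq_zero fun n _ => ?_
        split_ifs
        · exact sum_Phi_ind U (by omega) _ _
        · simp
      have f2 : ∑ k ∈ range B, v k ^ 2 = ∑ n ∈ range h, (if (c + n).Prime then (1 : ℝ) else 0) *
          (if (c + n).Prime then Phi U B v t (g (c + n)) else 0) := by
        have : ∀ k, v k ^ 2 = ∑ n ∈ range h,
            (if (c + n).Prime then v k * Phi U B (ind B k) t (g (c + n)) else 0) := by
          intro k
          rw [sq]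
          conv_lhs => enter [2]; rw [hv]
          simp only [mul_sum, mul_ite, mul_zero]
        simp only [this]
        rw [sum_comm]
        refine sum_congr rfl fun n _ => ?_
        split_ifs
        · rw [one_mul]; exact sum_mul_Phi_ind U (by omega) v f1 _ _
        · simp
      have f3 := sum_mul_sq_le_sq_mul_sq (range h)
        (fun n => if (c + n).Prime then (1 : ℝ) else 0)
        (fun n => if (c + n).Prime then Phi U B v t (g (c + n)) else 0)
      rw [← f2] at f3
      simp only [ite_pow, one_pow, ne_eq, OfNat.ofNat_ne_zero, not_false_eq_true, zero_pow] at f3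
      have f5 : 0 ≤ ∑ k ∈ range B, v k ^ 2 := sum_nonneg fun _ _ => sq_nonneg _
      rcases f5.eq_or_lt with h0 | h0
      · rw [← h0]; positivity
      · generalize hV : ∑ k ∈ range B, v k ^ 2 = V at *
        have f6 := s2 (fun k => v k / √V) (by rw [← sum_div, f1, zero_div]) (by
          simp only [div_pow, ← sum_div, hV, Real.sq_sqrt f5, div_self h0.ne', le_refl])
        have f7 : ∀ x, Phi U B (fun k => v k / √V) t x ^ 2 = Phi U B v t x ^ 2 / V := fun x => by
          rw [Phi, ← sum_div, div_pow, Real.sq_sqrt f5, Phi]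
        simp only [f7] at f6
        rw [sum_congr rfl (g := fun n => (if (c + n).Prime then Phi U B v t (g (c + n)) ^ 2 else 0) / V)
          fun n _ => by split_ifs <;> simp, ← sum_div, div_le_iff₀ h0] at f6
        have f4 := f3.trans (mul_le_mul_of_nonneg_left f6 hp0)
        refine le_of_mul_le_mul_right ?_ h0
        linarith
  rw [e1, e0, ← sum_Ico_sub (fun a => pc (nn (H * a))) hAA]
  refine (sum_le_sum key).trans ((sum_le_sum_of_subset_of_nonneg (t := range A)
    (fun a ha => mem_range.mpr (mem_Ico.mp ha).2) fun _ _ _ => by positivity).trans ?_)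
  rw [sum_add_distrib, ← mul_sum, sum_const, card_range, nsmul_eq_mul]
  have g1 := sum_ZZ' (B := B) (by omega) z (b ^ (s + 1))
  rw [← hA, mul_comm, ← le_div_iff₀ hB'] at g1
  have hw0 : (0 : ℝ) < z := by linarith
  have g2 := mul_le_mul_of_nonneg_left g1 (by positivity : 0 ≤ 16 * ν / (z : ℝ) ^ 2)
  have g3 : 16 * ν / (z : ℝ) ^ 2 * (2 * z ^ 2 * A / B) = 32 * ν / B * A := by field_simp; ring
  have g4 : (2 * E + 80 * ν / B) * A = A * (2 * E + 48 * ν / B) + 32 * ν / B * A := by ring
  linarith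

end

end Pool.Agent.H016e
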