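import Mathlib
import Pool.Agent.H.MP_016e95_nt.P

set_option autoImplicit false

namespace Pool.Agent.H016e

open Finset Ha237

lemma poly_lt (K k : ℕ) : ∃ Q : ℕ, ∀ q, Q ≤ q → K * (q + 1) ^ k < 2 ^ q := by
  have h := (tendsto_pow_const_div_const_pow_of_one_lt k (r := 2) (by norm_num)).eventually
    (gt_mem_nhds (show (0 : ℝ) < 1 / (2 * (K + 1)) by positivity))
  obtain ⟨Q, hQ⟩ := Filter.eventually_atTop.mp h
  refine ⟨Q, fun q hq => ?_⟩
  have a1 := hQ (q + 1) (by omega)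
  rw [div_lt_div_iff₀ (by positivity) (by positivity), pow_succ] at a1
  have a2 : (0 : ℝ) ≤ ((q + 1 : ℕ) : ℝ) ^ k := by positivity
  have a3 : (K : ℝ) * ((q + 1 : ℕ) : ℝ) ^ k < 2 ^ q := by nlinarith
  exact_mod_cast a3

lemma abs_dev_le {b : ℕ} (hb : 2 ≤ b) (d : ℕ → ℕ) (m k n : ℕ) : |dev b d m k n| ≤ n := by
  refine (abs_sum_le_sum_abs _ _).trans ((sum_le_card_nsmul _ _ 1 fun j _ =>
    abs_ind_le _ _ (by positivity)).trans (by simp))

lemma GG_lin {b' β z : ℕ} (hb : 0 < b') (h1 : 2 ^ z ≤ β) (h2 : 10 * b' ≤ z) :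
    (z : ℝ) ≤ 4 * b' * GG b' β := by
  have a1 := GG_ge b' β hb
  have hb' : (0 : ℝ) < b' := by exact_mod_cast hb
  have a2 : (2 : ℝ) ^ z / b' ≤ ((β / b' + 1 : ℕ) : ℝ) := by
    rw [div_le_iff₀ hb']
    exact_mod_cast h1.trans (by rw [mul_comm]; exact (Nat.lt_mul_div_succ β hb).le)
  have a3 := Real.log_le_log (by positivity) a2
  rw [Real.log_div (by positivity) hb'.ne', Real.log_pow] at a3
  have a4 := Real.log_le_self hb'.le
  have a5 : (10 : ℝ) * b' ≤ z := by exact_mod_cast h2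
  nlinarith [Real.log_two_gt_d9]

lemma dev_small {x j X β : ℝ} (hβ : 16 ≤ β) (hX : β ^ 24 ≤ X) (hj0 : 0 ≤ j) (hj : j ≤ β ^ 2 * X)
    (h : x ^ 2 ≤ 16 * j * √j) : |x| ≤ X / β ^ 4 := by
  have hβ0 : 0 < β := by linarith
  have hX0 : 0 < X := lt_of_lt_of_le (by positivity) hX
  have a1 : √j ≤ X / β ^ 11 := by
    refine Real.sqrt_le_iff.mpr ⟨by positivity, hj.trans ?_⟩
    rw [div_pow, le_div_iff₀ (by positivity)]
    calc _ = β ^ 24 * X := by ring
      _ ≤ X * X := mul_le_mul_of_nonneg_right hX hX0.le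
      _ = _ := by ring
  refine abs_le_of_sq_le_sq' (h.trans ?_) (by positivity) |> abs_le.mpr
  calc 16 * j * √j ≤ β * (β ^ 2 * X) * (X / β ^ 11) := by gcongr
    _ = _ := by field_simp

lemma cls_bound {b : ℕ} (hb : 2 ≤ b) (g d T : ℕ → ℕ) (h0 : T 0 = 0)
    (hT : ∀ y, T (y + 1) = T y + if y.Prime then (Nat.digits b (g y)).length else 0)
    (hd : ∀ y j, y.Prime → j < (Nat.digits b (g y)).length →
      d (T y + j) = g y / b ^ ((Nat.digits b (g y)).length - 1 - j) % b)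
    (e den κ : ℕ) (Λ : ℤ) (hden : 0 < den) (hΛ : Λ ≠ 0)
    (hdeg : ∀ c μ : ℕ, 1 ≤ c → Deg (e + 1) (Λ * (μ ^ (e + 1) : ℕ) / den) fun k => g (c + μ * k))
    (hper : ∀ W n n', 1 ≤ n → 1 ≤ n' → n ≡ n' [MOD den * W] → g n % W = g n' % W)
    (nn : ℕ → ℕ) (N1 : ∀ x n, 1 ≤ n → n < nn x → g n < x) (N2 : ∀ x, x ≤ g (nn x))
    (N4 : Monotone nn) : ∃ C : ℝ, 0 ≤ C ∧ ∀ m, 0 < m → ∀ n0 : ℕ,
      (∀ k < b ^ m, ∀ n, n0 ≤ n → dev b d m k n ^ 2 ≤ 16 * n * √n) → ∃ L0, ∀ L, L0 ≤ L →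
      ∀ l, l + 1 = m * (L + 1) → ∀ (X : ℕ) (γ : ℝ), 1 ≤ X → 0 < γ →
      (∀ n k : ℕ, X ≤ n → g n + k * γ ≤ g (n + k)) → X ≤ nn (b ^ l) →
      (b : ℝ) ^ (l + 1) ≤ κ * X * γ → γ ^ (e + 1) ≤ κ * ((b : ℝ) ^ (l + 1)) ^ e →
      pc (nn (b ^ (l + 1))) - pc (nn (b ^ l)) ≤ C * (m / b ^ m) * (X / (l + 1)) := by
  obtain ⟨a1, ha1⟩ : ∃ a1, a1 = 1400 * CW e + 1261 := ⟨_, rfl⟩
  obtain ⟨a2, ha2⟩ : ∃ a2, a2 = 700 * CW e + 2 * (e + 1) + 1 := ⟨_, rfl⟩
  obtain ⟨a3, ha3⟩ : ∃ a3, a3 = (a1 + a2 + 12 + 2) * (e + 1) := ⟨_, rfl⟩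
  obtain ⟨ρ, hρ⟩ : ∃ ρ : ℝ, ρ = 4 * (b * den : ℕ) := ⟨_, rfl⟩
  have hρ0 : 0 ≤ ρ := by rw [hρ]; positivity
  refine ⟨2 * (a3 + 1) * (880 * (a3 + 1) * (2 * ρ + 1) * (κ + 1) + 2), by positivity,
    fun m hm n0 hyp => ?_⟩
  obtain ⟨B, hB⟩ : ∃ B, B = b ^ m := ⟨_, rfl⟩
  have hB2 : 2 ≤ B := hB ▸ hb.trans (Nat.le_self_pow hm.ne' b)
  obtain ⟨Q, hQ⟩ := poly_lt (2 * ((45 * B ^ 2) ^ (100 * CW e + 90) * Λ.natAbs) ^ 2)
    (4 * (100 * CW e + 90))
  obtain ⟨K, hK⟩ : ∃ K, K = 720 * ((a3 + 1) ^ 2 * B) + den + B + 2 * Λ.natAbs ^ 2 + κ + n0 +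
    2 * (m * (a3 + 1)) + m + 16 := ⟨_, rfl⟩
  obtain ⟨Q', hQ'⟩ := poly_lt K 2
  refine ⟨(a3 + 1) * (Q' + Q ^ 2 * B + 64 * B + 10 * (b * den) + 2 * (a3 + 1)),
    fun L hL l hl X γ hX hγ hinc N3 G2 G3 => ?_⟩
  obtain ⟨z, hz⟩ : ∃ z, z = L / (a3 + 1) := ⟨_, rfl⟩
  have z1 : Q' + Q ^ 2 * B + 64 * B + 10 * (b * den) + 2 * (a3 + 1) ≤ z := by
    rw [hz, Nat.le_div_iff_mul_le (by omega), mul_comm]; exact hL
  have z2 : (a3 + 1) * z ≤ L := hz ▸ Nat.mul_div_le L _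
  have z0 : 1 ≤ z := by omega
  have z3 : L + 1 ≤ 2 * ((a3 + 1) * z) := by
    have := Nat.lt_mul_div_succ L (show 0 < a3 + 1 by omega)
    rw [← hz, mul_add] at this
    have : a3 + 1 ≤ (a3 + 1) * z := Nat.le_mul_of_pos_right _ z0
    omega
  have z4 : (a1 + a2) * z ≤ a3 * z := Nat.mul_le_mul_right _
    (ha3 ▸ le_trans (by omega) (Nat.le_mul_of_pos_right _ (Nat.succ_pos e)))
  have z5 : z ≤ a1 * z := Nat.le_mul_of_pos_left _ (by omega)
  obtain ⟨qT, hqT⟩ : ∃ qT, L = qT + a2 * z + z := ⟨L - z - a2 * z, by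
    rw [add_mul] at z2 z4; omega⟩
  obtain ⟨t, ht⟩ : ∃ t, t = qT + a2 * z := ⟨_, rfl⟩
  have t1 : a3 * z ≤ t := by rw [add_mul] at z2; omega
  have t2 : t ≤ 2 * ((a3 + 1) * z) := by omega
  obtain ⟨β, hβ⟩ : ∃ β, β = B ^ z := ⟨_, rfl⟩
  have β1 : 2 ^ z ≤ β := hβ ▸ Nat.pow_le_pow_left hB2 z
  have β2 : K * z ^ 2 < β := lt_of_le_of_lt (Nat.mul_le_mul_left _ (Nat.pow_le_pow_left (by omega) 2))
    ((hQ' z (by omega)).trans_le β1)
  have β3 : K * z < β := lt_of_le_of_lt (Nat.mul_le_mul_left _ (Nat.le_self_pow (by norm_num) z)) β2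
  have β4 : K < β := lt_of_le_of_lt (Nat.le_mul_of_pos_right _ z0) β3
  have β5 : z < β := lt_of_le_of_lt (Nat.le_mul_of_pos_left _ (by omega)) β3
  obtain ⟨u, hu⟩ : ∃ u, u = T (nn (b ^ l)) % m := ⟨_, rfl⟩
  have hum : u < m := hu ▸ Nat.mod_lt _ hm
  obtain ⟨s, hs⟩ : ∃ s, s + 1 + u = m := ⟨m - 1 - u, by omega⟩
  have hUB : b ^ u ≤ B := hB ▸ Nat.pow_le_pow_right (by omega) hum.le
  have hSB : b ^ (s + 1) ≤ B := hB ▸ Nat.pow_le_pow_right (by omega) (by omega)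
  obtain ⟨W, hW⟩ : ∃ W, W = b ^ u * B ^ t := ⟨_, rfl⟩
  obtain ⟨A, hA⟩ : ∃ A, A = β * b ^ (s + 1) := ⟨_, rfl⟩
  have hW0 : 0 < W := by rw [hW]; positivity
  have hA0 : 0 < A := by rw [hA]; exact Nat.mul_pos (by omega) (by positivity)
  have hAβ : A ≤ β ^ 2 := by rw [hA, sq]; exact Nat.mul_le_mul_left _ (by omega)
  have hWA : b ^ (l + 1) = W * A := by
    rw [hW, hA, hβ, hB, ← pow_mul, ← pow_mul, ← pow_add, ← pow_add, ← pow_add, hl, hqT, ← ht]
    congr 1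
    rw [← hs]; ring
  have hWA' : (b : ℝ) ^ (l + 1) = W * A := by exact_mod_cast hWA
  rw [hWA'] at G2 G3
  obtain ⟨H, hH⟩ : ∃ H, H = ⌊W / γ⌋₊ + 1 := ⟨_, rfl⟩
  have H1 : W / γ ≤ H := by rw [hH]; push_cast; exact (Nat.lt_floor_add_one _).le
  have H2 : (H : ℝ) ≤ W / γ + 1 := by
    rw [hH]; push_cast; exact add_le_add (Nat.floor_le (by positivity)) le_rfl
  have hW' : (0 : ℝ) < W := by exact_mod_cast hW0
  have hA' : (1 : ℝ) ≤ A := by exact_mod_cast hA0
  have hAβ' : (A : ℝ) ≤ β ^ 2 := by exact_mod_cast hAβ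
  have hβ' : (16 : ℝ) ≤ β := by exact_mod_cast (by omega)
  have hκβ : (κ : ℝ) + 2 ≤ β := by exact_mod_cast (by omega)
  have hX' : (1 : ℝ) ≤ X := by exact_mod_cast hX
  have hββ : (β : ℝ) < β ^ 2 := lt_self_pow₀ (by linarith) (by norm_num)
  have hκX : (κ + 2 : ℝ) * X ≤ β * X := mul_le_mul_of_nonneg_right hκβ (by linarith)
  have hκX' : (0 : ℝ) ≤ κ * X := by positivity
  have s6 : W ≤ H ^ (e + 1) * β ^ (2 * (e + 1)) := by
    have b1 : (W : ℝ) ^ e * W ≤ W ^ e * (H ^ (e + 1) * β ^ (2 * (e + 1))) := by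
      calc (W : ℝ) ^ e * W = W ^ (e + 1) := by ring
        _ ≤ (H * γ) ^ (e + 1) := pow_le_pow_left₀ hW'.le ((div_le_iff₀ hγ).mp H1) _
        _ = H ^ (e + 1) * γ ^ (e + 1) := mul_pow _ _ _
        _ ≤ H ^ (e + 1) * (β ^ 2 * (W * β ^ 2) ^ e) := by
          gcongr
          refine G3.trans ?_
          gcongr
          linarith
        _ = _ := by rw [mul_pow, ← pow_mul]; ring
    exact_mod_cast le_of_mul_le_mul_left b1 (by positivity)
  have s5 : β ^ (a1 + a2 + 12) ≤ H := by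
    refine (Nat.pow_le_pow_iff_left (n := e + 1) (by omega)).mp (Nat.le_of_mul_le_mul_right
      (le_trans ?_ s6) (pow_pos (by omega) _))
    rw [← pow_mul, ← pow_add, ← add_mul, ← ha3, hβ, ← pow_mul, hW, mul_comm z]
    exact (Nat.pow_le_pow_right (by omega) t1).trans (Nat.le_mul_of_pos_left _ (by positivity))
  have HA : W / γ * A ≤ κ * X := by rw [div_mul_eq_mul_div, div_le_iff₀ hγ]; exact G2
  have X1 : (β : ℝ) ^ 24 ≤ X := by
    have b1 : (β : ℝ) ^ 25 ≤ H := by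
      exact_mod_cast (Nat.pow_le_pow_right (by omega) (by omega)).trans s5
    have b2 : W / γ ≤ W / γ * A := le_mul_of_one_le_right (by positivity) hA'
    refine le_of_mul_le_mul_left (a := (β : ℝ)) ?_ (by linarith)
    exact (pow_succ' _ 24).ge.trans (b1.trans (by linarith))
  have hp : ∀ k ≤ 24, (β : ℝ) ^ k ≤ X := fun k hk => (pow_le_pow_right₀ (by linarith) hk).trans X1
  have hz' : (0 : ℝ) < z := by exact_mod_cast z0
  have hB' : (0 : ℝ) < B := by exact_mod_cast (by omega)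
  have hY : (nn (b ^ (l + 1)) : ℝ) ≤ β * X := by
    rcases le_or_gt (nn (b ^ (l + 1))) X with h | h
    · have : (nn (b ^ (l + 1)) : ℝ) ≤ X := by exact_mod_cast h
      linarith
    · obtain ⟨k, hk⟩ := Nat.exists_eq_add_of_lt h
      have b1 : (g (X + k) : ℝ) ≤ W * A := by
        exact_mod_cast hWA ▸ (N1 (b ^ (l + 1)) (X + k) (by omega) (by omega)).le
      have b2 : k * γ ≤ κ * X * γ := by linarith [hinc X k le_rfl, (Nat.cast_nonneg (g X) : (0 : ℝ) ≤ _)]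
      have b3 := le_of_mul_le_mul_right b2 hγ
      rw [hk]
      push_cast
      linarith
  have main := cls hb g d T hT hd m s u t z l X nn hm hs (by rw [hl, hqT, ht]) hX
    (fun n n' h1 h2 => by
      obtain ⟨k, rfl⟩ := Nat.exists_eq_add_of_le h2
      have := hinc n k h1
      have : (0 : ℝ) ≤ k * γ := by positivity
      exact_mod_cast (by linarith : (g n : ℝ) ≤ g (n + k)))
    N1 N2 N3 N4 (T (nn (b ^ l)) / m + 1) (by
      have := Nat.div_add_mod (T (nn (b ^ l))) m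
      rw [mul_add]; omega) (by omega) (X / β ^ 4) (by positivity) (fun y hy j hj k hk => by
      by_cases hn : n0 ≤ j
      · refine dev_small hβ' X1 (Nat.cast_nonneg j) ?_ (hyp k hk j hn)
        have b1 := T_le hb g T hT h0 (l + 1) _ (N1 (b ^ (l + 1))) y hy
        have b2 : j ≤ m * j := Nat.le_mul_of_pos_left _ hm
        have b3 : (j : ℝ) ≤ (l + 1 : ℕ) * y + m := by exact_mod_cast (by omega)
        have b4 : (y : ℝ) ≤ β * X := le_trans (by exact_mod_cast hy) hY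
        have b5 : ((l + 1 : ℕ) : ℝ) + m ≤ β := by
          have c1 : l + 1 ≤ m * (2 * ((a3 + 1) * z)) := hl ▸ Nat.mul_le_mul_left _ z3
          have c2 : (2 * (m * (a3 + 1)) + m) * z ≤ K * z := Nat.mul_le_mul_right _ (by omega)
          have c3 : m ≤ m * z := Nat.le_mul_of_pos_right _ z0
          have c4 : (2 * (m * (a3 + 1)) + m) * z = m * (2 * ((a3 + 1) * z)) + m * z := by ring
          exact_mod_cast (by omega : l + 1 + m ≤ β)
        have b6 : (1 : ℝ) ≤ β * X := by linarith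
        have b7 := mul_le_mul_of_nonneg_left b4 (Nat.cast_nonneg (l + 1))
        have b8 := mul_le_mul_of_nonneg_left b6 (Nat.cast_nonneg m)
        have b9 := mul_le_mul_of_nonneg_right b5 (by linarith : (0 : ℝ) ≤ β * X)
        linarith
      · refine (abs_dev_le hb d m k j).trans ?_
        rw [le_div_iff₀ (by positivity)]
        refine le_trans ?_ (hp 5 (by norm_num))
        rw [pow_succ' _ 4]
        exact mul_le_mul_of_nonneg_right (by exact_mod_cast (by omega)) (by positivity))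
    ((2 * ρ + 1) * H / z * (11 * (a3 + 1))) (by positivity) (fun c h a hc ha => by
      rw [← hB] at ha ⊢
      have hh : h ≤ H := by
        rcases h with _ | h
        · omega
        · have b1 := Nat.div_add_mod (g (c + 0)) W
          have b2 := Nat.div_add_mod (g (c + h)) W
          have b3 := Nat.mod_lt (g (c + h)) hW0
          rw [← hW] at ha
          rw [ha _ (by omega)] at b1 b2
          generalize g (c + 0) % W = r1 at b1
          have b4 : (g (c + h) : ℝ) ≤ g (c + 0) + W := by exact_mod_cast (by omega)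
          have b5 : h ≤ ⌊W / γ⌋₊ := Nat.le_floor ((le_div_iff₀ hγ).mpr (by
            rw [add_zero] at b4; linarith [hinc c h hc]))
          omega
      have q1 := Nat.sqrt_le' (t / B)
      have q2 := Nat.lt_succ_sqrt' (t / B)
      have q3 : Q ≤ Nat.sqrt (t / B) := Nat.le_sqrt'.mpr ((Nat.le_div_iff_mul_le (by omega)).mpr
        (by rw [add_mul] at z4; omega))
      generalize Nat.sqrt (t / B) = q0 at q1 q2 q3
      have q4 : q0 ^ 2 * B ≤ t := (Nat.le_div_iff_mul_le (by omega)).mp q1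
      have q5 : t ≤ (q0 + 1) ^ 2 * B := ((Nat.div_lt_iff_lt_mul (by omega)).mp q2).le
      obtain ⟨g1, g2⟩ := gram (w := fun n => g (c + n)) (b' := b * den) (c := c) (q0 := q0) (ρ := ρ)
        ha1 ha2 ht hβ (by omega) (by positivity) hden hΛ z0 (by rw [add_mul] at z4; omega)
        (by
          have : (β : ℝ) < c := by
            have b1 : (X : ℝ) ≤ c := by exact_mod_cast hc
            linarith [hp 2 (by norm_num)]
          exact_mod_cast this)
        (fun e he => ⟨hB ▸ (Nat.Coprime.coprime_mul_right_right he).pow_right _,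
          (Nat.Coprime.coprime_mul_right_right he).pow_right _, Nat.Coprime.coprime_mul_left_right he⟩)
        (fun n0 μ => by simpa only [add_assoc] using hdeg (c + n0) μ (by omega))
        (fun W n n' hn => hper W _ _ (by omega) (by omega) (Nat.ModEq.add_left c hn)) hγ
        (fun n k => by simpa only [add_assoc] using hinc (c + n) k (by omega)) ha hh
        (by
          refine le_trans ?_ β2.le
          calc _ ≤ 180 * (2 * ((a3 + 1) * z)) ^ 2 * B := by gcongr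
            _ = 720 * ((a3 + 1) ^ 2 * B) * z ^ 2 := by ring
            _ ≤ _ := Nat.mul_le_mul_right _ (by omega))
        (by omega) (by omega) (by omega) s5 (hW ▸ s6) (hW ▸ H1) q4
        (by
          refine (Nat.pow_le_pow_iff_left (n := 2) (by omega)).mp ?_
          have : q0 ^ 2 ≤ q0 ^ 2 * B := Nat.le_mul_of_pos_right _ (by omega)
          have : 2 * (a3 + 1) * z ≤ z * z := Nat.mul_le_mul_right _ (by omega)
          rw [mul_assoc, ← sq] at this
          omega)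
        (by
          refine lt_of_le_of_lt ?_ ((hQ q0 q3).trans_le (Nat.pow_le_pow_left hB2 q0))
          calc _ ≤ 2 * ((45 * ((q0 + 1) ^ 2 * B) * B) ^ (100 * CW e) * Λ.natAbs *
                (45 * ((q0 + 1) ^ 2 * B) * B) ^ 90) ^ 2 := by gcongr
            _ = 2 * ((45 * B ^ 2 * (q0 + 1) ^ 2) ^ (100 * CW e + 90) * Λ.natAbs) ^ 2 := by
              rw [show 45 * ((q0 + 1) ^ 2 * B) * B = 45 * B ^ 2 * (q0 + 1) ^ 2 by ring,
                mul_right_comm _ Λ.natAbs, ← pow_add]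
            _ = _ := by
              rw [mul_pow (45 * B ^ 2), ← pow_mul]
              generalize (45 * B ^ 2) ^ (100 * CW e + 90) = x
              generalize 100 * CW e + 90 = y
              ring)
        (hρ ▸ GG_lin (by positivity) β1 (by omega))
      have hν : 0 ≤ (2 * ρ + 1) * H / z := by positivity
      have ha' : (0 : ℝ) ≤ a3 := Nat.cast_nonneg _
      refine ⟨g1.trans (le_mul_of_one_le_right hν (by linarith)), fun v v0 v1 =>
        (g2 v v0 v1).trans ?_⟩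
      rw [mul_assoc _ (11 * _)]
      refine mul_le_mul_of_nonneg_left ?_ hν
      rw [← mul_div_assoc, ← mul_div_assoc]
      have : (t : ℝ) ≤ 2 * ((a3 + 1) * z) := by exact_mod_cast t2
      exact div_le_div_of_nonneg_right (by linarith [mul_nonneg ha' hz'.le]) hB'.le)
  rw [← hB, ← hβ, ← hA] at main
  refine main.trans ?_
  have hBc : (b : ℝ) ^ m = B := by rw [hB]; push_cast; rfl
  have f1 : 2 * (X / β ^ 4) * (A : ℝ) ≤ 2 * (X / (z * B)) := by
    have b1 : (z : ℝ) * B ≤ β * β := by exact_mod_cast Nat.mul_le_mul β5.le (by omega)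
    calc _ ≤ 2 * (X / β ^ 4) * (β : ℝ) ^ 2 := by gcongr
      _ = 2 * (X / (β * β)) := by field_simp
      _ ≤ _ := by gcongr
  have f2 : (H : ℝ) * A ≤ (κ + 1) * X := by
    linarith [hp 2 (by norm_num), mul_le_mul_of_nonneg_right H2 (by linarith : (0 : ℝ) ≤ A)]
  have f3 : X / (z * B) ≤ 2 * (a3 + 1) * ((m / B) * (X / (l + 1)) : ℝ) := by
    have b1 : (l : ℝ) + 1 ≤ m * (2 * ((a3 + 1) * z)) := by
      exact_mod_cast hl ▸ Nat.mul_le_mul_left _ z3
    rw [div_mul_div_comm, ← mul_div_assoc, div_le_div_iff₀ (by positivity) (by positivity)]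
    linarith [mul_le_mul_of_nonneg_left b1 (by positivity : (0 : ℝ) ≤ X * B)]
  rw [hBc]
  calc _ = 2 * (X / β ^ 4) * (A : ℝ) + 880 * (a3 + 1) * (2 * ρ + 1) * (H * A) / (z * B) := by
        field_simp; ring
    _ ≤ 2 * (X / (z * B)) + 880 * (a3 + 1) * (2 * ρ + 1) * ((κ + 1) * X) / (z * B) := by gcongr
    _ = (880 * (a3 + 1) * (2 * ρ + 1) * (κ + 1) + 2) * (X / (z * B)) := by ring
    _ ≤ (880 * (a3 + 1) * (2 * ρ + 1) * (κ + 1) + 2) *
        (2 * (a3 + 1) * ((m / B) * (X / (l + 1)) : ℝ)) := by gcongr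
    _ = _ := by ring

end Pool.Agent.H016e
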