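import Mathlib
import Pool.Agent.H.MP_016e95_nt.Q

set_option autoImplicit false

namespace Pool.Agent.H016e

open Finset Ha237 Polynomial Filter

lemma deg_of_poly (Q : ℝ[X]) (n : ℕ) (γ : ℝ) (h : ∀ x, (fwdDiff 1)^[n] Q.eval x = γ) (φ : ℕ → ℝ)
    (hφ : ∀ k : ℕ, φ k = Q.eval (k : ℝ)) : Deg n γ φ := fun k => by
  rw [fwdDiff_iter_eq_sum_shift, ← h k, fwdDiff_iter_eq_sum_shift]
  exact sum_congr rfl fun i _ => by simp [hφ]

lemma growth (P : ℝ[X]) (hl : 0 < P.leadingCoeff) : ∃ x0 : ℝ, ∀ x, x0 ≤ x →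
    P.leadingCoeff / 2 * x ^ P.natDegree ≤ P.eval x ∧
      P.eval x ≤ 2 * P.leadingCoeff * x ^ P.natDegree := by
  refine eventually_atTop.mp ?_
  filter_upwards [P.isEquivalent_atTop_lead.isLittleO.bound (c := 1 / 2) (by norm_num),
    eventually_ge_atTop 0] with x h hx
  have h0 : 0 ≤ P.leadingCoeff * x ^ P.natDegree := by positivity
  rw [Real.norm_eq_abs, Real.norm_eq_abs, abs_of_nonneg h0, abs_le, Pi.sub_apply] at h
  constructor <;> linarith [h.1, h.2]

lemma poly_facts (f : ℚ[X]) (hf : 0 < f.degree) (g : ℕ → ℕ)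
    (hg : ∀ n : ℕ, 1 ≤ n → (g n : ℚ) = f.eval (n : ℚ)) : ∃ (e den : ℕ) (Λ : ℤ), 0 < den ∧ Λ ≠ 0 ∧
    (∀ c μ : ℕ, 1 ≤ c → Deg (e + 1) (Λ * (μ ^ (e + 1) : ℕ) / den) fun k => g (c + μ * k)) ∧
    (∀ W n n', 1 ≤ n → 1 ≤ n' → n ≡ n' [MOD den * W] → g n % W = g n' % W) ∧
    ∃ c C : ℝ, 0 < c ∧ ∃ n1 : ℕ, ∀ n : ℕ, n1 ≤ n →
      g n + c * n ^ e ≤ g (n + 1) ∧ c * n ^ (e + 1) ≤ g n ∧ g n ≤ C * n ^ (e + 1) := by
  obtain ⟨a, ha, hN⟩ := IsLocalization.integerNormalization_spec (nonZeroDivisors ℤ) f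
  have ha0 : a ≠ 0 := nonZeroDivisors.ne_zero ha
  obtain ⟨F, hF⟩ : ∃ F : ℤ[X], F.map (algebraMap ℤ ℚ) = C ((a * a : ℤ) : ℚ) * f :=
    ⟨C a * IsLocalization.integerNormalization (nonZeroDivisors ℤ) f, by
      rw [Polynomial.map_mul, hN]; simp [mul_assoc]⟩
  obtain ⟨den, hden⟩ : ∃ den : ℕ, (den : ℤ) = a * a := ⟨(a * a).toNat, Int.toNat_of_nonneg (mul_self_nonneg a)⟩
  have hd0 : 0 < den := by
    have := mul_self_pos.mpr ha0
    omega
  have hd' : (0 : ℝ) < den := by exact_mod_cast hd0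
  rw [← hden] at hF
  have h1 : F.natDegree = f.natDegree := by
    rw [← natDegree_map_eq_of_injective (f := algebraMap ℤ ℚ) (by exact Int.cast_injective), hF,
      natDegree_C_mul (by exact_mod_cast hd0.ne')]
  obtain ⟨e, he⟩ : ∃ e, F.natDegree = e + 1 :=
    ⟨F.natDegree - 1, by have := natDegree_pos_iff_degree_pos.mpr hf; omega⟩
  have hF0 : F.leadingCoeff ≠ 0 := leadingCoeff_ne_zero.mpr (by rintro rfl; simp at he)
  have h2 : ∀ n : ℕ, 1 ≤ n → (den : ℤ) * g n = F.eval (n : ℤ) := by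
    intro n hn
    have := congrArg (eval (n : ℚ)) hF
    rw [eval_mul, eval_C, ← hg n hn, eval_natCast_map, eq_intCast] at this
    exact_mod_cast this.symm
  obtain ⟨P, hP⟩ : ∃ P : ℝ[X], P = C (den : ℝ)⁻¹ * F.map (Int.castRingHom ℝ) := ⟨_, rfl⟩
  have P1 : P.natDegree = e + 1 := by
    rw [hP, natDegree_C_mul (inv_ne_zero hd'.ne'),
      natDegree_map_eq_of_injective (by exact Int.cast_injective), he]
  have P2 : P.leadingCoeff = F.leadingCoeff / den := by
    rw [hP, leadingCoeff_mul, leadingCoeff_C,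
      leadingCoeff_map_of_injective (by exact Int.cast_injective), inv_mul_eq_div]
    rfl
  have P3 : ∀ n : ℕ, 1 ≤ n → (g n : ℝ) = P.eval (n : ℝ) := by
    intro n hn
    rw [hP, eval_mul, eval_C, eval_natCast_map, ← h2 n hn]
    simp [hd'.ne']
  have P4 : 0 < P.leadingCoeff := by
    by_contra hc
    have := (P.tendsto_atBot_of_leadingCoeff_nonpos (natDegree_pos_iff_degree_pos.mp (by omega))
      (not_lt.mp hc)).comp tendsto_natCast_atTop_atTop
    obtain ⟨n, a1, a2⟩ := ((this.eventually_lt_atBot 0).and (eventually_ge_atTop 1)).exists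
    exact absurd a1 (not_lt.mpr ((Nat.cast_nonneg _).trans (P3 n a2).le))
  refine ⟨e, den, F.leadingCoeff * (e + 1).factorial, hd0, mul_ne_zero hF0 (by positivity), ?_, ?_, ?_⟩
  · intro c μ hc
    refine deg_of_poly (P.comp (C (μ : ℝ) * X + C (c : ℝ))) _ _ (fun x => ?_) _ fun k => by
      rw [P3 _ (by omega)]; simp [add_comm]
    rcases Nat.eq_zero_or_pos μ with rfl | hμ
    · rw [fwdDiff_iter_eq_zero_of_degree_lt (by simp [natDegree_comp])]; simp
    · have a1 : (μ : ℝ) ≠ 0 := by positivity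
      have a2 := natDegree_linear (b := (c : ℝ)) a1
      have a3 : (P.comp (C (μ : ℝ) * X + C (c : ℝ))).natDegree = e + 1 := by
        rw [natDegree_comp, a2, P1, mul_one]
      have a4 := congrFun (fwdDiff_iter_degree_eq_factorial (P.comp (C (μ : ℝ) * X + C (c : ℝ)))) x
      rw [a3, leadingCoeff_comp (by omega), leadingCoeff_linear a1, P1, P2] at a4
      rw [a4]
      simp
      ring
  · intro W n n' hn hn' h
    refine (Nat.modEq_iff_dvd).mpr (Int.dvd_of_mul_dvd_mul_left (a := den) (by omega) ?_)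
    rw [mul_sub, h2 n hn, h2 n' hn']
    exact (by exact_mod_cast h.dvd : (den * W : ℤ) ∣ n' - n).trans (sub_dvd_eval_sub _ _ F)
  · obtain ⟨x0, h0⟩ := growth P P4
    have D1 : P.derivative.natDegree = e := by rw [natDegree_derivative, P1]; rfl
    have D2 : P.leadingCoeff ≤ P.derivative.leadingCoeff := by
      rw [leadingCoeff_derivative, P1]
      exact le_mul_of_one_le_right P4.le (by exact_mod_cast (by omega))
    obtain ⟨x1, h1⟩ := growth P.derivative (P4.trans_le D2)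
    refine ⟨P.leadingCoeff / 2, 2 * P.leadingCoeff, by positivity, ⌈x0⌉₊ + ⌈x1⌉₊ + 1, fun n hn => ?_⟩
    have b0 : x0 ≤ n := Nat.ceil_le.mp (by omega)
    have b1 : x1 ≤ n := Nat.ceil_le.mp (by omega)
    rw [P3 n (by omega), P3 (n + 1) (by omega)]
    refine ⟨?_, P1 ▸ h0 n b0⟩
    obtain ⟨ξ, ⟨c1, -⟩, c2⟩ := exists_hasDerivAt_eq_slope (fun x => P.eval x)
      (fun x => P.derivative.eval x) (show (n : ℝ) < n + 1 by linarith) P.continuous.continuousOn
      fun x _ => P.hasDerivAt x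
    have c3 := (h1 ξ (by linarith)).1
    rw [D1, c2, add_sub_cancel_left, div_one] at c3
    have c4 : P.leadingCoeff / 2 * (n : ℝ) ^ e ≤ P.derivative.leadingCoeff / 2 * ξ ^ e := by
      gcongr
      linarith
    push_cast
    linarith

lemma cheb' (X : ℕ) (hX : 160000 ≤ X) : X / Real.log X ≤ pc (10 * X) - pc X := by
  rw [pc, pc, sum_boole, sum_boole, ← Nat.count_eq_card_filter_range,
    ← Nat.count_eq_card_filter_range]
  have hx : (160000 : ℝ) ≤ X := by exact_mod_cast hX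
  have h1 := Chebyshev.pi_ge (10 * X)
  have h2 := Chebyshev.pi_le_log4_mul_div (show (1 : ℝ) < X by linarith)
  rw [Nat.floor_natCast, Real.log_sqrt (by positivity)] at h2
  have h4 : (Nat.primeCounting (10 * X) : ℝ) ≤ Nat.count Nat.Prime (10 * X) + 1 := by
    have : Nat.primeCounting (10 * X) ≤ Nat.count Nat.Prime (10 * X) + 1 := by
      rw [Nat.primeCounting, Nat.primeCounting', Nat.count_succ]; split_ifs <;> omega
    exact_mod_cast this
  have h5 : (Nat.count Nat.Prime X : ℝ) ≤ Nat.primeCounting X := by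
    exact_mod_cast Nat.count_monotone Nat.Prime (Nat.le_succ _)
  push_cast at h1
  have l0 : 0 < Real.log X := Real.log_pos (by linarith)
  have l1 : 0 < Real.log (10 * X) := Real.log_pos (by linarith)
  have l2 : Real.log (10 * X) ≤ 3 / 2 * Real.log X := by
    have : Real.log (10 ^ 2) ≤ Real.log X := Real.log_le_log (by norm_num) (by linarith)
    rw [Real.log_pow] at this
    rw [Real.log_mul (by norm_num) (by linarith)]
    push_cast at this
    linarith
  have l3 : Real.log (10 * X + 1) / Real.log (10 * X) ≤ 2 := by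
    rw [div_le_iff₀ l1, show 2 * Real.log (10 * X) = Real.log ((10 * X) ^ 2) by
      rw [Real.log_pow]; norm_num]
    exact Real.log_le_log (by positivity) (by nlinarith)
  have l4 : Real.log 4 = 2 * Real.log 2 := by
    rw [show (4 : ℝ) = 2 ^ 2 by norm_num, Real.log_pow]; norm_num
  have l5 : 20 / 3 * Real.log 2 * (X / Real.log X) ≤ 10 * X * Real.log 2 / Real.log (10 * X) := by
    refine le_trans (le_of_eq ?_) (div_le_div_of_nonneg_left (by positivity) l1 l2)
    field_simp; ring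
  have l6 : Real.log 4 * X / (Real.log X / 2) = 4 * Real.log 2 * (X / Real.log X) := by
    rw [l4]; field_simp; ring
  have l7 : 5 * √X ≤ X / Real.log X := by
    have a1 : √(√X) * √(√X) = √X := Real.mul_self_sqrt (by positivity)
    have a2 : √X * √X = X := Real.mul_self_sqrt (by positivity)
    have a3 : 20 ≤ √(√X) := Real.le_sqrt_of_sq_le (Real.le_sqrt_of_sq_le (by linarith))
    have a4 := Real.log_le_self (show 0 ≤ √(√X) by positivity)
    rw [Real.log_sqrt (by positivity), Real.log_sqrt (by positivity)] at a4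
    rw [le_div_iff₀ l0]
    generalize √(√X) = s at *
    have a5 : 5 * Real.log X ≤ √X := by nlinarith
    nlinarith [Real.sqrt_nonneg (X : ℝ)]
  have l8 : 400 ≤ √X := Real.le_sqrt_of_sq_le (by linarith)
  rw [sub_div] at h1
  rw [l6] at h2
  generalize X / Real.log X = y at *
  nlinarith [Real.log_two_gt_d9]

lemma core {b : ℕ} (hb : 2 ≤ b) (g d T : ℕ → ℕ) (h0 : T 0 = 0)
    (hT : ∀ y, T (y + 1) = T y + if y.Prime then (Nat.digits b (g y)).length else 0)
    (hd : ∀ y j, y.Prime → j < (Nat.digits b (g y)).length →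
      d (T y + j) = g y / b ^ ((Nat.digits b (g y)).length - 1 - j) % b)
    (f : ℚ[X]) (hf : 0 < f.degree) (hg : ∀ n : ℕ, 1 ≤ n → (g n : ℚ) = f.eval (n : ℚ))
    (hyp : ∀ m, 0 < m → ∃ n0, ∀ k < b ^ m, ∀ n, n0 ≤ n → dev b d m k n ^ 2 ≤ 16 * n * √n) : False := by
  obtain ⟨e, den, Λ, hden, hΛ, hdeg, hper, c, C1, hc, n1, hn1⟩ := poly_facts f hf g hg
  have hb' : (2 : ℝ) ≤ b := by exact_mod_cast hb
  have hex : ∀ x, ∃ n, 1 ≤ n ∧ x ≤ g n := by
    intro x
    obtain ⟨n, hn⟩ := exists_nat_ge (x / c + n1 + 1)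
    have a0 : (0 : ℝ) ≤ x / c := by positivity
    have a1 : (n1 : ℝ) + 1 ≤ n := by linarith
    have a2 : n1 + 1 ≤ n := by exact_mod_cast a1
    have a3 : (n : ℝ) ≤ n ^ (e + 1) := le_self_pow₀ (by linarith [Nat.cast_nonneg (α := ℝ) n1]) (by omega)
    have a4 : (x : ℝ) ≤ c * n ^ (e + 1) := by
      rw [← div_le_iff₀' hc]; linarith [Nat.cast_nonneg (α := ℝ) n1]
    exact ⟨n, by omega, by exact_mod_cast a4.trans (hn1 n (by omega)).2.1⟩
  obtain ⟨nn, N0, N1, N2, N4⟩ : ∃ nn : ℕ → ℕ, (∀ x, 1 ≤ nn x) ∧ (∀ x n, 1 ≤ n → n < nn x → g n < x) ∧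
      (∀ x, x ≤ g (nn x)) ∧ Monotone nn :=
    ⟨fun x => Nat.find (hex x), fun x => (Nat.find_spec (hex x)).1,
      fun x n h1 h2 => not_le.mp fun h => Nat.find_min (hex x) h2 ⟨h1, h⟩,
      fun x => (Nat.find_spec (hex x)).2, fun x y h => Nat.find_mono fun n hn => ⟨hn.1, h.trans hn.2⟩⟩
  have hC1 : 0 ≤ C1 := by
    have a1 := hn1 (n1 + 1) (by omega)
    have a2 : (0 : ℝ) < ((n1 + 1 : ℕ) : ℝ) ^ (e + 1) := by positivity
    exact le_of_mul_le_mul_right (by linarith [a1.2.2, Nat.cast_nonneg (α := ℝ) (g (n1 + 1))]) a2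
  obtain ⟨K, hK⟩ := exists_nat_ge ((C1 * 10 ^ (e + 1) + 1) * (2 ^ (e + 1) / c))
  replace hK : (C1 * 10 ^ (e + 1) + 1) * (2 ^ (e + 1) / c) ≤ b ^ K := hK.trans (by
    exact_mod_cast (Nat.lt_pow_self (by omega)).le)
  obtain ⟨κ, hκ⟩ := exists_nat_ge (b ^ K * C1 / c + c ^ (e + 1) * (2 ^ (e + 1) / c) ^ e)
  obtain ⟨C, hC, H⟩ := cls_bound hb g d T h0 hT hd e den κ Λ hden hΛ hdeg hper nn N1 N2 N4
  obtain ⟨K', hK'⟩ := exists_nat_ge (2 * b * (K + 1) * C)
  obtain ⟨m0, hm0⟩ := poly_lt K' 1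
  choose! n0 hn0 using hyp
  choose! L0 hL0 using fun m hm => H m hm (n0 m) (hn0 m hm)
  obtain ⟨j, j1, j2, j3⟩ : ∃ j, (∀ i < K, L0 (m0 + i + 1) ≤ j) ∧ K + 1 ≤ j ∧
      ∀ n < n1 + 160000, g n ≤ j := by
    refine ⟨∑ i ∈ range K, L0 (m0 + i + 1) + (K + 1) + ∑ n ∈ range (n1 + 160000), g n,
      fun i hi => ?_, by omega, fun n hn => ?_⟩
    · have := single_le_sum (f := fun i => L0 (m0 + i + 1)) (fun _ _ => Nat.zero_le _) (mem_range.mpr hi)
      omega
    · have := single_le_sum (f := g) (fun _ _ => Nat.zero_le _) (mem_range.mpr hn)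
      omega
  obtain ⟨l, hl⟩ : ∃ l, l = m0 + (m0 + K).factorial * j := ⟨_, rfl⟩
  have l1 : j ≤ l := hl ▸ (Nat.le_mul_of_pos_left _ (Nat.factorial_pos _)).trans (Nat.le_add_left _ _)
  have l2 : l < b ^ l := Nat.lt_pow_self (by omega)
  obtain ⟨X, hX⟩ : ∃ X, X = nn (b ^ l) := ⟨_, rfl⟩
  have X0 : b ^ l ≤ g X := hX ▸ N2 _
  have X1 : n1 + 160000 ≤ X := by
    by_contra h
    have := j3 X (by omega)
    omega
  have X2 : (X : ℝ) ^ (e + 1) < 2 ^ (e + 1) / c * b ^ l := by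
    obtain ⟨Y, rfl⟩ : ∃ Y, X = Y + 1 := ⟨X - 1, by omega⟩
    have a1 : (g Y : ℝ) < b ^ l := by exact_mod_cast N1 (b ^ l) Y (by omega) (by omega)
    have a2 := (hn1 Y (by omega)).2.1.trans_lt a1
    have a3 : ((Y + 1 : ℕ) : ℝ) ≤ 2 * Y := by exact_mod_cast (by omega)
    refine (pow_le_pow_left₀ (by positivity) a3 _).trans_lt ?_
    rw [mul_pow, div_mul_eq_mul_div, mul_div_assoc]
    exact mul_lt_mul_of_pos_left ((lt_div_iff₀' hc).mpr a2) (by positivity)
  have hX' : (160000 : ℝ) ≤ X := by exact_mod_cast (by omega)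
  have hl' : (K : ℝ) + 1 ≤ l := by exact_mod_cast (by omega)
  have hK0 : (0 : ℝ) ≤ K := Nat.cast_nonneg K
  have hinc : ∀ n k : ℕ, X ≤ n → g n + k * (c * X ^ e) ≤ g (n + k) := by
    intro n k hn
    induction k with
    | zero => simp
    | succ k ih =>
      have a1 := (hn1 (n + k) (by omega)).1
      have a2 : c * (X : ℝ) ^ e ≤ c * ((n + k : ℕ) : ℝ) ^ e := by
        gcongr; omega
      rw [← add_assoc]
      push_cast at a1 a2 ⊢
      linarith
  have cl : ∀ i ∈ range K, pc (nn (b ^ (l + (i + 1)))) - pc (nn (b ^ (l + i))) ≤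
      X / (2 * b * l) / (K + 1) := by
    intro i hi
    have hi' := mem_range.mp hi
    obtain ⟨r, hr⟩ := Nat.dvd_factorial (show 0 < m0 + i + 1 by omega) (show m0 + i + 1 ≤ m0 + K by omega)
    have r0 : 0 < r := Nat.pos_of_mul_pos_left (hr ▸ Nat.factorial_pos _)
    have p1 : (b : ℝ) ^ l ≤ b ^ (l + i + 1) := pow_le_pow_right₀ (by linarith) (by omega)
    have p2 : (b : ℝ) ^ (l + i + 1) ≤ b ^ K * b ^ l := by
      rw [← pow_add]; exact pow_le_pow_right₀ (by linarith) (by omega)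
    have k1 : 0 ≤ (b : ℝ) ^ K * C1 / c := by positivity
    have k2 : 0 ≤ c ^ (e + 1) * (2 ^ (e + 1) / c) ^ e := by positivity
    refine (hL0 (m0 + i + 1) (by omega) (r * j) ((j1 i hi').trans (Nat.le_mul_of_pos_left _ r0)) (l + i)
      (by rw [hl, hr]; ring) X (c * X ^ e) (by omega) (by positivity) hinc
      (hX ▸ N4 (Nat.pow_le_pow_right (by omega) (by omega))) ?_ ?_).trans ?_
    · have a1 : (b : ℝ) ^ l ≤ C1 * X ^ (e + 1) :=
        le_trans (by exact_mod_cast X0) (hn1 X (by omega)).2.2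
      calc _ ≤ (b : ℝ) ^ K * (C1 * X ^ (e + 1)) := p2.trans (by gcongr)
        _ = b ^ K * C1 / c * X * (c * X ^ e) := by field_simp; ring
        _ ≤ _ := by gcongr; linarith
    · calc _ = c ^ (e + 1) * ((X : ℝ) ^ (e + 1)) ^ e := by rw [mul_pow, ← pow_mul, ← pow_mul, mul_comm e]
        _ ≤ c ^ (e + 1) * (2 ^ (e + 1) / c * b ^ (l + i + 1)) ^ e := by
          gcongr
          exact X2.le.trans (by gcongr)
        _ = c ^ (e + 1) * (2 ^ (e + 1) / c) ^ e * (b ^ (l + i + 1)) ^ e := by rw [mul_pow]; ring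
        _ ≤ _ := by gcongr; linarith
    · have a1 : (K' : ℝ) * (m0 + i + 1 : ℕ) ≤ b ^ (m0 + i + 1) := by
        have := (hm0 (m0 + i + 1) (by omega)).le.trans (Nat.pow_le_pow_left hb _)
        rw [pow_one] at this
        exact_mod_cast (Nat.mul_le_mul_left _ (Nat.le_succ _)).trans this
      have a2 : C * ((m0 + i + 1 : ℕ) / b ^ (m0 + i + 1)) ≤ 1 / (2 * b * (K + 1)) := by
        rw [← mul_div_assoc, div_le_div_iff₀ (by positivity) (by positivity)]
        linarith [mul_le_mul_of_nonneg_right hK' (Nat.cast_nonneg (m0 + i + 1))]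
      have a3 : (X : ℝ) / ((l + i : ℕ) + 1) ≤ X / l := by
        refine div_le_div_of_nonneg_left (by positivity) (by linarith) ?_
        push_cast
        linarith [Nat.cast_nonneg (α := ℝ) i]
      refine (mul_le_mul a2 a3 (by positivity) (by positivity)).trans (le_of_eq ?_)
      field_simp
  have t1 := sum_le_card_nsmul _ _ _ cl
  rw [sum_range_sub (fun i => pc (nn (b ^ (l + i)))), card_range, nsmul_eq_mul, add_zero, ← hX] at t1
  have u0 : (0 : ℝ) < 2 ^ (e + 1) / c := by positivity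
  have u1 : (0 : ℝ) < b ^ l := by positivity
  have t2 : 10 * X ≤ nn (b ^ (l + K)) := by
    by_contra h
    have a1 : X ≤ nn (b ^ (l + K)) := hX ▸ N4 (Nat.pow_le_pow_right (by omega) (by omega))
    have a2 : (b : ℝ) ^ (l + K) ≤ g (nn (b ^ (l + K))) := by exact_mod_cast N2 _
    have a3 := (hn1 (nn (b ^ (l + K))) (by omega)).2.2
    have a4 : (nn (b ^ (l + K)) : ℝ) ≤ 10 * X := by exact_mod_cast (by omega)
    have a5 : C1 * (nn (b ^ (l + K)) : ℝ) ^ (e + 1) ≤ C1 * (10 ^ (e + 1) * (2 ^ (e + 1) / c * b ^ l)) := by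
      refine mul_le_mul_of_nonneg_left ((pow_le_pow_left₀ (by positivity) a4 _).trans ?_) hC1
      rw [mul_pow]
      exact mul_le_mul_of_nonneg_left X2.le (by positivity)
    rw [pow_add] at a2
    linarith [mul_le_mul_of_nonneg_right hK u1.le, mul_pos u0 u1]
  have t3 : pc (10 * X) ≤ pc (nn (b ^ (l + K))) :=
    sum_le_sum_of_subset_of_nonneg (range_mono t2) fun _ _ _ => by split_ifs <;> norm_num
  have t4 := cheb' X (by omega)
  have t5 : Real.log X ≤ 2 * b * l := by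
    have a1 : (X : ℝ) ≤ b ^ (K + l) := by
      refine (le_self_pow₀ (by linarith) (by omega)).trans (X2.le.trans ?_)
      rw [pow_add _ K]
      refine mul_le_mul_of_nonneg_right (le_trans ?_ hK) u1.le
      exact le_mul_of_one_le_left u0.le (by linarith [mul_nonneg hC1 (by positivity : (0 : ℝ) ≤ 10 ^ (e + 1))])
    have a2 := Real.log_le_log (by linarith) a1
    rw [Real.log_pow] at a2
    have a3 := mul_le_mul (show ((K + l : ℕ) : ℝ) ≤ 2 * l by push_cast; linarith)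
      (Real.log_le_self (by linarith : (0 : ℝ) ≤ b)) (Real.log_nonneg (by linarith)) (by linarith)
    linarith
  have t6 : X / (2 * b * l) ≤ X / Real.log X :=
    div_le_div_of_nonneg_left (by linarith) (Real.log_pos (by linarith)) t5
  have t7 : (0 : ℝ) < X / (2 * b * l) := div_pos (by linarith) (mul_pos (by linarith) (by linarith))
  generalize (X : ℝ) / (2 * b * l) = y at t1 t6 t7
  have t8 : K * (y / (K + 1)) < y := by
    rw [← mul_div_assoc, div_lt_iff₀ (by linarith)]; linarith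
  linarith

end Pool.Agent.H016e
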